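import Mathlib

set_option autoImplicit false

namespace Pool.Agent.Results.MP_7fd9c6_an.MeasureCenter

open MeasureTheory Filter Topology

/-! ### Definitions -/

section Defs

variable {X : Type*} [MetricSpace X]

/-- `U` is null for every `f`-invariant Borel probability measure -/
def UniversallyNull (f : X → X) (U : Set X) : Prop :=
  letI : MeasurableSpace X := borel X
  ∀ μ : Measure X, IsProbabilityMeasure μ → μ.map f = μ → μ U = 0

/-- the measure center: the complement of the union of all universally null open sets -/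
def measureCenter (f : X → X) : Set X := (⋃₀ {U : Set X | IsOpen U ∧ UniversallyNull f U})ᶜ

/-- `x` is a `δ`-average-pseudo-orbit of `f` -/
def AvgPseudoOrbit (f : X → X) (δ : ℝ) (x : ℕ → X) : Prop :=
  ∃ N : ℕ, ∀ n ≥ N, ∀ k : ℕ,
    (∑ i ∈ Finset.range n, dist (f (x (i + k))) (x (i + k + 1))) / (n : ℝ) < δ

/-- average shadowing property of `f` on the set `A`, using points of `A` only -/
def ASP (f : X → X) (A : Set X) : Prop :=
  ∀ ε > 0, ∃ δ > 0, ∀ x : ℕ → X, (∀ i, x i ∈ A) → AvgPseudoOrbit f δ x →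
    ∃ y ∈ A, limsup (fun n : ℕ => (∑ i ∈ Finset.range n, dist (f^[i] y) (x i)) / (n : ℝ)) atTop < ε

/-- asymptotic average shadowing property of `f` on the set `A`, using points of `A` only -/
def AASP (f : X → X) (A : Set X) : Prop :=
  ∀ x : ℕ → X, (∀ i, x i ∈ A) →
    Tendsto (fun n : ℕ => (∑ i ∈ Finset.range n, dist (f (x i)) (x (i + 1))) / (n : ℝ)) atTop (𝓝 0) →
    ∃ y ∈ A, Tendsto (fun n : ℕ => (∑ i ∈ Finset.range n, dist (f^[i] y) (x i)) / (n : ℝ)) atTop (𝓝 0)

/-- `g` is a mistake function, constant in the second variable above `ε₀` -/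
structure IsMistake (g : ℕ → ℝ → ℕ) (ε₀ : ℝ) : Prop where
  pos : 0 < ε₀
  mono : ∀ ε > 0, ∀ m n : ℕ, 1 ≤ m → m ≤ n → g m ε ≤ g n ε
  lim : ∀ ε > 0, Tendsto (fun n : ℕ => (g n ε : ℝ) / (n : ℝ)) atTop (𝓝 0)
  const : ∀ n : ℕ, ∀ ε > ε₀, g n ε = g n ε₀

/-- the ball `B_n(g; x, ε)` -/
def mball (f : X → X) (g : ℕ → ℝ → ℕ) (n : ℕ) (x : X) (ε : ℝ) : Set X :=
  {y | ∃ Λ ⊆ Finset.range n, n - g n ε ≤ Λ.card ∧ ∀ j ∈ Λ, dist (f^[j] x) (f^[j] y) < ε}

/-- almost specification of `f` on the set `A`, using points of `A` only -/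
def AlmostSpec (f : X → X) (A : Set X) : Prop :=
  ∃ (g : ℕ → ℝ → ℕ) (ε₀ : ℝ) (k : ℝ → ℕ), IsMistake g ε₀ ∧
    (∀ ε > 0, ∀ n ≥ k ε, g n ε < n) ∧
    ∀ m : ℕ, 1 ≤ m → ∀ (ε : ℕ → ℝ) (x : ℕ → X) (n : ℕ → ℕ),
      (∀ j < m, 0 < ε j ∧ x j ∈ A ∧ k (ε j) ≤ n j) →
      ∃ z ∈ A, ∀ j < m, f^[∑ i ∈ Finset.range j, n i] z ∈ mball f g (n j) (x j) (ε j)

end Defs


open Classical in
/-- greedy separated subfamily -/
lemma sep (w : ℕ) (hw : 1 ≤ w) (V : Finset ℕ) : ∃ P ⊆ V, (∀ p ∈ P, ∀ p' ∈ P, p < p' → p + w ≤ p') ∧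
    ∀ v ∈ V, ∃ p ∈ P, p ≤ v ∧ v < p + w := by
  induction V using Finset.strongInduction with
  | H V ih =>
    rcases V.eq_empty_or_nonempty with rfl | hV
    · exact ⟨∅, by simp, by simp, by simp⟩
    · set p0 := V.min' hV with hp0
      have hp0V : p0 ∈ V := V.min'_mem hV
      have hss : V.filter (fun v => p0 + w ≤ v) ⊂ V := by
        refine ⟨Finset.filter_subset _ _, fun h => ?_⟩
        have := (Finset.mem_filter.mp (h hp0V)).2
        omega
      obtain ⟨P', hP'V, hs, hc⟩ := ih _ hss
      refine ⟨insert p0 P', ?_, ?_, ?_⟩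
      · intro x hx
        rcases Finset.mem_insert.mp hx with rfl | hx
        · exact hp0V
        · exact (Finset.mem_filter.mp (hP'V hx)).1
      · intro p hp p' hp' hlt
        rcases Finset.mem_insert.mp hp with rfl | hp
        · rcases Finset.mem_insert.mp hp' with h | hp'
          · omega
          · exact (Finset.mem_filter.mp (hP'V hp')).2
        · rcases Finset.mem_insert.mp hp' with h | hp'
          · have := (Finset.mem_filter.mp (hP'V hp)).2
            omega
          · exact hs p hp p' hp' hlt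
      · intro v hv
        have h1 : p0 ≤ v := V.min'_le v hv
        by_cases h2 : v < p0 + w
        · exact ⟨p0, Finset.mem_insert_self _ _, h1, h2⟩
        · obtain ⟨p, hp, hp2⟩ := hc v (Finset.mem_filter.mpr ⟨hv, by omega⟩)
          exact ⟨p, Finset.mem_insert_of_mem hp, hp2⟩

/-- union of the intervals `[v, v + w)` -/
def cov (V : Finset ℕ) (w : ℕ) : Finset ℕ := V.biUnion fun v => Finset.Ico v (v + w)

lemma mem_cov {V : Finset ℕ} {w i : ℕ} : i ∈ cov V w ↔ ∃ v ∈ V, v ≤ i ∧ i < v + w := by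
  simp [cov]

lemma disj_of_sep {w : ℕ} {P : Finset ℕ} (hs : ∀ p ∈ P, ∀ p' ∈ P, p < p' → p + w ≤ p') :
    (P : Set ℕ).PairwiseDisjoint (fun p => Finset.Ico p (p + w)) := by
  intro p hp p' hp' hne
  rw [Function.onFun, Finset.disjoint_left]
  intro i hi hi'
  rw [Finset.mem_Ico] at hi hi'
  rcases lt_or_gt_of_ne hne with h | h
  · have := hs p hp p' hp' h; omega
  · have := hs p' hp' p hp h; omega

/-- One level of the hierarchy.  `N` is a set of positions that is thin in the long intervals
`[v, v + 16 w)` and thick in the short intervals `[v, v + w)`. -/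
lemma level (w : ℕ) (hw : 1 ≤ w) (V : Finset ℕ) (N : ℕ → Prop) [DecidablePred N]
    (hthin : ∀ v ∈ V, ((Finset.Ico v (v + 16 * w)).filter N).card ≤ 2 * w)
    (hthick : ∀ v ∈ V, 14 * w ≤ 16 * ((Finset.Ico v (v + w)).filter N).card) :
    2 * (cov V w).card ≤ (cov V (16 * w)).card := by
  obtain ⟨P, hPV, hs, hc⟩ := sep (16 * w) (by omega) V
  -- short cover inside one long interval
  have key : ∀ p ∈ P, (cov (V.filter fun v => p ≤ v ∧ v < p + 16 * w) w).card ≤ 6 * w := by
    intro p hp
    obtain ⟨Q, hQV, hsQ, hcQ⟩ := sep w hw (V.filter fun v => p ≤ v ∧ v < p + 16 * w)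
    have h1 : (cov (V.filter fun v => p ≤ v ∧ v < p + 16 * w) w) ⊆ cov Q (2 * w) := by
      intro i hi
      obtain ⟨v, hv, hi1, hi2⟩ := mem_cov.mp hi
      obtain ⟨q, hq, hq1, hq2⟩ := hcQ v hv
      exact mem_cov.mpr ⟨q, hq, by omega, by omega⟩
    have h2 : (cov Q (2 * w)).card ≤ Q.card * (2 * w) := by
      unfold cov
      apply Finset.card_biUnion_le_card_mul
      intro q _; simp
    have h3 : Q.card ≤ 3 := by
      rcases Q.eq_empty_or_nonempty with rfl | hQ
      · simp
      · set m := Q.max' hQ with hm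
        have hmQ : m ∈ Q := Q.max'_mem hQ
        have hd : ((Q.erase m : Finset ℕ) : Set ℕ).PairwiseDisjoint
            (fun q => (Finset.Ico q (q + w)).filter N) := by
          intro q hq q' hq' hne
          have := disj_of_sep (w := w) (P := Q) hsQ (Finset.mem_of_mem_erase (by exact_mod_cast hq))
            (Finset.mem_of_mem_erase (by exact_mod_cast hq')) hne
          exact Finset.disjoint_filter_filter this
        have hsub : (Q.erase m).biUnion (fun q => (Finset.Ico q (q + w)).filter N) ⊆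
            (Finset.Ico p (p + 16 * w)).filter N := by
          intro i hi
          obtain ⟨q, hq, hi⟩ := Finset.mem_biUnion.mp hi
          rw [Finset.mem_filter, Finset.mem_Ico] at hi ⊢
          have hqQ := Finset.mem_of_mem_erase hq
          have hqm : q < m := lt_of_le_of_ne (Q.le_max' q hqQ) (Finset.ne_of_mem_erase hq)
          have h5 := hsQ q hqQ m hmQ hqm
          have h6 := (Finset.mem_filter.mp (hQV hqQ)).2
          have h7 := (Finset.mem_filter.mp (hQV hmQ)).2
          exact ⟨by omega, hi.2⟩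
        have hcard := Finset.card_le_card hsub
        rw [Finset.card_biUnion hd] at hcard
        have hsum : 14 * w * (Q.card - 1) ≤
            16 * ∑ q ∈ Q.erase m, ((Finset.Ico q (q + w)).filter N).card := by
          rw [Finset.mul_sum]
          calc 14 * w * (Q.card - 1) = ∑ q ∈ Q.erase m, 14 * w := by
                rw [Finset.sum_const, Finset.card_erase_of_mem hmQ, smul_eq_mul]; ring
            _ ≤ _ := Finset.sum_le_sum fun q hq =>
                hthick q (Finset.mem_filter.mp (hQV (Finset.mem_of_mem_erase hq))).1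
        have hth := hthin p (hPV hp)
        by_contra hcon
        have h8 : 3 ≤ Q.card - 1 := by omega
        have h9 : 14 * w * 3 ≤ 14 * w * (Q.card - 1) := Nat.mul_le_mul_left _ h8
        have h10 : 16 * ∑ q ∈ Q.erase m, ((Finset.Ico q (q + w)).filter N).card ≤ 16 * (2 * w) :=
          Nat.mul_le_mul_left _ (hcard.trans hth)
        omega
    calc (cov (V.filter fun v => p ≤ v ∧ v < p + 16 * w) w).card ≤ (cov Q (2 * w)).card :=
          Finset.card_le_card h1
      _ ≤ Q.card * (2 * w) := h2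
      _ ≤ 3 * (2 * w) := Nat.mul_le_mul_right _ h3
      _ = 6 * w := by ring
  have h1 : cov V w ⊆ P.biUnion fun p => cov (V.filter fun v => p ≤ v ∧ v < p + 16 * w) w := by
    intro i hi
    obtain ⟨v, hv, hi1, hi2⟩ := mem_cov.mp hi
    obtain ⟨p, hp, hp1, hp2⟩ := hc v hv
    exact Finset.mem_biUnion.mpr ⟨p, hp, mem_cov.mpr ⟨v, Finset.mem_filter.mpr ⟨hv, hp1, hp2⟩, hi1, hi2⟩⟩
  have h2 : (cov V w).card ≤ P.card * (6 * w) :=
    (Finset.card_le_card h1).trans (Finset.card_biUnion_le_card_mul _ _ _ key)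
  have h3 : P.card * (16 * w) ≤ (cov V (16 * w)).card := by
    have h4 : P.biUnion (fun p => Finset.Ico p (p + 16 * w)) ⊆ cov V (16 * w) := by
      unfold cov
      exact Finset.biUnion_subset_biUnion_of_subset_left _ hPV
    have h5 := Finset.card_le_card h4
    rw [Finset.card_biUnion (disj_of_sep hs)] at h5
    simp only [Nat.card_Ico, Nat.add_sub_cancel_left, Finset.sum_const, smul_eq_mul] at h5
    exact h5
  calc 2 * (cov V w).card ≤ 2 * (P.card * (6 * w)) := Nat.mul_le_mul_left _ h2
    _ = P.card * (12 * w) := by ring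
    _ ≤ P.card * (16 * w) := Nat.mul_le_mul_left _ (by omega)
    _ ≤ _ := h3

/-! ### The sequence `xx` and violations -/

/-- the universal sequence: constant on `[16^j, 16^(j+1))`, with the letters `0` and `1`
alternating -/
def xx (i : ℕ) : Fin 3 := if Even (Nat.log 16 i) then 0 else 1

lemma xx_ne_two (i : ℕ) : xx i ≠ 2 := by unfold xx; split_ifs <;> decide

open Classical in
/-- number of differences between `y` read from `p` on and `xx`, among the first `n` letters -/
noncomputable def mism (y : ℕ → Fin 3) (p n : ℕ) : ℕ := ((Finset.range n).filter fun i => y (p + i) ≠ xx i).card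

/-- at all the scales `16^a, ..., 16^(2a)` the sequence `y` read from `p` on is close to `xx` -/
def Viol (y : ℕ → Fin 3) (p a : ℕ) : Prop := ∀ j, a ≤ j → j ≤ 2 * a → 16 * mism y p (16 ^ j) ≤ 16 ^ j

/-- the letter of `xx` on `[16^j, 16^(j+1))` -/
lemma xx_eq {i j : ℕ} (h1 : 16 ^ j ≤ i) (h2 : i < 16 ^ (j + 1)) : xx i = if Even j then 0 else 1 := by
  unfold xx
  have : Nat.log 16 i = j := by
    rw [Nat.log_eq_iff]
    · exact ⟨h1, h2⟩
    · right
      have : 1 ≤ 16 ^ j := Nat.one_le_pow _ _ (by norm_num)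
      exact ⟨by norm_num, by omega⟩
  rw [this]

/-- the number of letters different from the letter of level `j` in a window of length
`16^(j+1)` that is close to `xx` -/
lemma thin (y : ℕ → Fin 3) (p j : ℕ) (h : 16 * mism y p (16 ^ (j + 1)) ≤ 16 ^ (j + 1)) :
    ((Finset.Ico p (p + 16 * 16 ^ j)).filter fun i => y i ≠ if Even j then 0 else 1).card ≤
      2 * 16 ^ j := by
  classical
  have h1 : ((Finset.Ico p (p + 16 * 16 ^ j)).filter fun i => y i ≠ if Even j then 0 else 1) ⊆
      ((Finset.range (16 ^ j)) ∪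
        ((Finset.range (16 ^ (j + 1))).filter fun i => y (p + i) ≠ xx i)).image (fun i => p + i) := by
    intro i hi
    rw [Finset.mem_filter, Finset.mem_Ico] at hi
    rw [Finset.mem_image]
    refine ⟨i - p, ?_, by omega⟩
    have e : p + (i - p) = i := by omega
    rw [Finset.mem_union, Finset.mem_range, Finset.mem_filter, Finset.mem_range, e]
    by_cases h2 : i - p < 16 ^ j
    · exact Or.inl h2
    · right
      have h3 : i - p < 16 ^ (j + 1) := by rw [pow_succ]; omega
      refine ⟨h3, ?_⟩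
      rw [xx_eq (not_lt.mp h2) h3]
      exact hi.2
  refine (Finset.card_le_card h1).trans (Finset.card_image_le.trans ((Finset.card_union_le _ _).trans ?_))
  rw [Finset.card_range]
  have : mism y p (16 ^ (j + 1)) ≤ 16 ^ j := by
    rw [pow_succ] at h
    have e : 16 ^ j * 16 = 16 * 16 ^ j := mul_comm _ _
    rw [e] at h
    rw [pow_succ, e]
    omega
  unfold mism at this
  omega

lemma thick (y : ℕ → Fin 3) (p j : ℕ) (h : 16 * mism y p (16 ^ (j + 1)) ≤ 16 ^ (j + 1)) :
    14 * 16 ^ (j + 1) ≤ 16 * ((Finset.Ico p (p + 16 ^ (j + 1))).filter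
      fun i => y i = if Even j then 0 else 1).card := by
  classical
  have h1 := thin y p j h
  have h2 := Finset.card_filter_add_card_filter_not (s := Finset.Ico p (p + 16 ^ (j + 1)))
    (fun i => y i = if Even j then 0 else 1)
  simp only [Nat.card_Ico, Nat.add_sub_cancel_left] at h2
  have e : 16 * 16 ^ j = 16 ^ (j + 1) := by rw [pow_succ]; ring
  rw [e] at h1
  simp only [ne_eq] at h1
  omega

lemma level_viol (y : ℕ → Fin 3) (V : Finset ℕ) (j : ℕ)
    (h1 : ∀ v ∈ V, 16 * mism y v (16 ^ (j + 1)) ≤ 16 ^ (j + 1))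
    (h2 : ∀ v ∈ V, 16 * mism y v (16 ^ (j + 2)) ≤ 16 ^ (j + 2)) :
    2 * (cov V (16 ^ (j + 1))).card ≤ (cov V (16 ^ (j + 2))).card := by
  classical
  have e : 16 ^ (j + 2) = 16 * 16 ^ (j + 1) := by rw [pow_succ 16 (j + 1)]; ring
  rw [e]
  apply level (16 ^ (j + 1)) (Nat.one_le_pow _ _ (by norm_num)) V
    (fun i => y i ≠ if Even (j + 1) then 0 else 1)
  · intro v hv
    exact thin y v (j + 1) (h2 v hv)
  · intro v hv
    refine (thick y v j (h1 v hv)).trans (Nat.mul_le_mul_left _ (Finset.card_le_card ?_))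
    intro i hi
    rw [Finset.mem_filter] at hi ⊢
    refine ⟨hi.1, ?_⟩
    rw [hi.2]
    by_cases hj : Even j
    · have : ¬ Even (j + 1) := by rw [Nat.even_add_one]; exact not_not.mpr hj
      rw [if_pos hj, if_neg this]; decide
    · have : Even (j + 1) := by rw [Nat.even_add_one]; exact hj
      rw [if_neg hj, if_pos this]; decide

lemma chain (y : ℕ → Fin 3) (V : Finset ℕ) (a : ℕ) (ha : 1 ≤ a) (hV : ∀ v ∈ V, Viol y v a) (t : ℕ)
    (ht : t ≤ a) : 2 ^ t * (cov V (16 ^ a)).card ≤ (cov V (16 ^ (a + t))).card := by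
  induction t with
  | zero => simp
  | succ t ih =>
    obtain ⟨j, hj⟩ : ∃ j, a + t = j + 1 := ⟨a + t - 1, by omega⟩
    have h1 := level_viol y V j
      (fun v hv => hV v hv (j + 1) (by omega) (by omega))
      (fun v hv => hV v hv (j + 2) (by omega) (by omega))
    have h2 := ih (by omega)
    have e : a + (t + 1) = j + 2 := by omega
    rw [e]
    rw [hj] at h2
    calc 2 ^ (t + 1) * (cov V (16 ^ a)).card = 2 * (2 ^ t * (cov V (16 ^ a)).card) := by ring
      _ ≤ 2 * (cov V (16 ^ (j + 1))).card := Nat.mul_le_mul_left _ h2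
      _ ≤ _ := h1


/-! ### The two subshifts -/

/-- the bound for the number of violations in a window of length `n` -/
def phi (a n : ℕ) : ℕ := 16 ^ (2 * a) * (Nat.sqrt n + 2)

open Classical in
/-- sequences with few violations -/
def XX : Set (ℕ → Fin 3) :=
  {y | ∀ a, 1 ≤ a → ∀ p n, ((Finset.range n).filter fun q => Viol y (p + q) a).card ≤ phi a n}

/-- sequences without violations -/
def AA : Set (ℕ → Fin 3) := {y | ∀ a, 1 ≤ a → ∀ p, ¬ Viol y p a}

lemma AA_subset : AA ⊆ XX := by
  classical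
  intro y hy a ha p n
  rw [Finset.filter_false_of_mem (fun q _ => hy a ha (p + q))]
  simp

/-- the violation `(p, a)` lies in one block `[k^2, (k+1)^2)` -/
def Free (p a : ℕ) : Prop := p + 16 ^ (2 * a) ≤ (Nat.sqrt p + 1) ^ 2

/-- positions to be erased for the level `a` -/
def kset (u : ℕ → Fin 3) (a : ℕ) : Set ℕ := {i | ∃ p, Viol u p a ∧ Free p a ∧ p ≤ i ∧ i < p + 16 ^ a}

open Classical in
/-- erase the violations inside the blocks -/
noncomputable def kill (u : ℕ → Fin 3) (i : ℕ) : Fin 3 := if ∃ a, 1 ≤ a ∧ i ∈ kset u a then 2 else u i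

lemma sqrt_eq_of {i k : ℕ} (h1 : k ^ 2 ≤ i) (h2 : i < (k + 1) ^ 2) : Nat.sqrt i = k :=
  (Nat.eq_sqrt'.mpr ⟨h1, h2⟩).symm

open Classical in
lemma kset_block (u : ℕ → Fin 3) (a : ℕ) (ha : 1 ≤ a) (k : ℕ) :
    2 ^ a * ((Finset.Ico (k ^ 2) ((k + 1) ^ 2)).filter fun i => i ∈ kset u a).card ≤ 2 * k + 1 := by
  set V := (Finset.Ico (k ^ 2) ((k + 1) ^ 2)).filter fun p => Viol u p a ∧ Free p a with hV
  have hmem : ∀ p ∈ V, k ^ 2 ≤ p ∧ p + 16 ^ (2 * a) ≤ (k + 1) ^ 2 ∧ Viol u p a := by
    intro p hp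
    rw [hV, Finset.mem_filter, Finset.mem_Ico] at hp
    have hs : Nat.sqrt p = k := sqrt_eq_of hp.1.1 hp.1.2
    have := hp.2.2
    unfold Free at this
    rw [hs] at this
    exact ⟨hp.1.1, this, hp.2.1⟩
  have h1 : ((Finset.Ico (k ^ 2) ((k + 1) ^ 2)).filter fun i => i ∈ kset u a) ⊆ cov V (16 ^ a) := by
    intro i hi
    rw [Finset.mem_filter, Finset.mem_Ico] at hi
    obtain ⟨p, hpv, hpf, hpi, hpi2⟩ := hi.2
    have hp1 : 16 ^ a ≤ 16 ^ (2 * a) := Nat.pow_le_pow_right (by norm_num) (by omega)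
    unfold Free at hpf
    have hsi : Nat.sqrt i = k := sqrt_eq_of hi.1.1 hi.1.2
    have hsp : Nat.sqrt p = k := by
      have h3 : Nat.sqrt p ≤ k := by rw [← hsi]; exact Nat.sqrt_le_sqrt hpi
      have h4 : i < (Nat.sqrt p + 1) ^ 2 := by omega
      have h5 : Nat.sqrt i < Nat.sqrt p + 1 := by
        rw [Nat.sqrt_lt']; exact h4
      omega
    have hk : k ^ 2 ≤ p := by rw [← hsp]; exact Nat.sqrt_le' p
    refine mem_cov.mpr ⟨p, ?_, hpi, hpi2⟩
    rw [hV, Finset.mem_filter, Finset.mem_Ico]
    exact ⟨⟨hk, by omega⟩, hpv, hpf⟩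
  have h2 := chain u V a ha (fun v hv => (hmem v hv).2.2) a le_rfl
  have h3 : cov V (16 ^ (a + a)) ⊆ Finset.Ico (k ^ 2) ((k + 1) ^ 2) := by
    intro i hi
    obtain ⟨v, hv, h4, h5⟩ := mem_cov.mp hi
    have := hmem v hv
    rw [two_mul] at this
    rw [Finset.mem_Ico]
    omega
  have h4 := Finset.card_le_card h3
  rw [Nat.card_Ico] at h4
  have e : (k + 1) ^ 2 - k ^ 2 = 2 * k + 1 := by
    have : (k + 1) ^ 2 = k ^ 2 + (2 * k + 1) := by ring
    omega
  rw [e] at h4
  exact (Nat.mul_le_mul_left _ (Finset.card_le_card h1)).trans (h2.trans h4)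

open Classical in
lemma kset_sq (u : ℕ → Fin 3) (a : ℕ) (ha : 1 ≤ a) (m : ℕ) :
    2 ^ a * ((Finset.range (m ^ 2)).filter fun i => i ∈ kset u a).card ≤ m ^ 2 := by
  induction m with
  | zero => simp
  | succ m ih =>
    have h1 : (Finset.range ((m + 1) ^ 2)).filter (fun i => i ∈ kset u a) ⊆
        ((Finset.range (m ^ 2)).filter fun i => i ∈ kset u a) ∪
        ((Finset.Ico (m ^ 2) ((m + 1) ^ 2)).filter fun i => i ∈ kset u a) := by
      intro i hi
      rw [Finset.mem_filter, Finset.mem_range] at hi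
      rw [Finset.mem_union, Finset.mem_filter, Finset.mem_filter, Finset.mem_range, Finset.mem_Ico]
      by_cases h : i < m ^ 2
      · exact Or.inl ⟨h, hi.2⟩
      · exact Or.inr ⟨⟨by omega, hi.1⟩, hi.2⟩
    have h2 := (Finset.card_le_card h1).trans (Finset.card_union_le _ _)
    have h3 := kset_block u a ha m
    calc 2 ^ a * ((Finset.range ((m + 1) ^ 2)).filter fun i => i ∈ kset u a).card
        ≤ 2 ^ a * (((Finset.range (m ^ 2)).filter fun i => i ∈ kset u a).card +
          ((Finset.Ico (m ^ 2) ((m + 1) ^ 2)).filter fun i => i ∈ kset u a).card) :=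
          Nat.mul_le_mul_left _ h2
      _ = 2 ^ a * ((Finset.range (m ^ 2)).filter fun i => i ∈ kset u a).card +
          2 ^ a * ((Finset.Ico (m ^ 2) ((m + 1) ^ 2)).filter fun i => i ∈ kset u a).card := by ring
      _ ≤ m ^ 2 + (2 * m + 1) := add_le_add ih h3
      _ = (m + 1) ^ 2 := by ring

open Classical in
lemma kset_range (u : ℕ → Fin 3) (a : ℕ) (ha : 1 ≤ a) (n : ℕ) :
    2 ^ a * ((Finset.range n).filter fun i => i ∈ kset u a).card ≤ 4 * n := by
  rcases Nat.eq_zero_or_pos n with rfl | hn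
  · simp
  have h1 : n ≤ (Nat.sqrt n + 1) ^ 2 := (Nat.lt_succ_sqrt' n).le
  have h2 : (Finset.range n).filter (fun i => i ∈ kset u a) ⊆
      (Finset.range ((Nat.sqrt n + 1) ^ 2)).filter fun i => i ∈ kset u a := by
    apply Finset.filter_subset_filter
    exact Finset.range_subset_range.mpr h1
  have h3 : Nat.sqrt n ^ 2 ≤ n := Nat.sqrt_le' n
  have h4 : 1 ≤ Nat.sqrt n := by
    rw [Nat.le_sqrt]; omega
  calc _ ≤ _ := Nat.mul_le_mul_left _ (Finset.card_le_card h2)
    _ ≤ (Nat.sqrt n + 1) ^ 2 := kset_sq u a ha _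
    _ ≤ (2 * Nat.sqrt n) ^ 2 := Nat.pow_le_pow_left (by omega) 2
    _ = 4 * Nat.sqrt n ^ 2 := by ring
    _ ≤ 4 * n := Nat.mul_le_mul_left _ h3

open Classical in
lemma kset_small (u : ℕ → Fin 3) (a n : ℕ) :
    ((Finset.range n).filter fun i => i ∈ kset u a).card ≤
      16 ^ a * ((Finset.range n).filter fun p => Viol u p a).card := by
  have h1 : (Finset.range n).filter (fun i => i ∈ kset u a) ⊆
      cov ((Finset.range n).filter fun p => Viol u p a) (16 ^ a) := by
    intro i hi
    rw [Finset.mem_filter, Finset.mem_range] at hi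
    obtain ⟨p, hpv, -, hpi, hpi2⟩ := hi.2
    exact mem_cov.mpr ⟨p, Finset.mem_filter.mpr ⟨Finset.mem_range.mpr (by omega), hpv⟩, hpi, hpi2⟩
  refine (Finset.card_le_card h1).trans ?_
  rw [mul_comm]
  unfold cov
  apply Finset.card_biUnion_le_card_mul
  intro v _; simp

lemma kset_empty (u : ℕ → Fin 3) {a n i : ℕ} (hn : n ≤ a) (hi : i < n) : i ∉ kset u a := by
  rintro ⟨p, -, hf, hp1, -⟩
  unfold Free at hf
  have h1 : Nat.sqrt p ≤ p := Nat.sqrt_le_self p
  have h2 : (Nat.sqrt p + 1) ^ 2 ≤ a ^ 2 := Nat.pow_le_pow_left (by omega) 2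
  have h3 : a < 16 ^ a := Nat.lt_pow_self (by norm_num)
  have h4 : a ^ 2 < (16 ^ a) ^ 2 := Nat.pow_lt_pow_left h3 (by norm_num)
  have h5 : (16 ^ a) ^ 2 = 16 ^ (2 * a) := by rw [← pow_mul, mul_comm]
  omega

open Classical in
/-- number of erased letters -/
lemma kill_count (u : ℕ → Fin 3) (a0 n : ℕ) :
    (((Finset.range n).filter fun i => kill u i ≠ u i).card : ℝ) ≤
      ∑ a ∈ Finset.Ico 1 a0, (16 : ℝ) ^ a * ((Finset.range n).filter fun p => Viol u p a).card +
      8 / 2 ^ a0 * n := by
  have h1 : (Finset.range n).filter (fun i => kill u i ≠ u i) ⊆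
      (Finset.Ico 1 n).biUnion fun a => (Finset.range n).filter fun i => i ∈ kset u a := by
    intro i hi
    rw [Finset.mem_filter, Finset.mem_range] at hi
    rw [Finset.mem_biUnion]
    have h2 : ∃ a, 1 ≤ a ∧ i ∈ kset u a := by
      by_contra hcon
      apply hi.2
      unfold kill
      rw [if_neg hcon]
    obtain ⟨a, ha, hia⟩ := h2
    refine ⟨a, Finset.mem_Ico.mpr ⟨ha, ?_⟩, Finset.mem_filter.mpr ⟨Finset.mem_range.mpr hi.1, hia⟩⟩
    by_contra hcon
    exact kset_empty u (not_lt.mp hcon) hi.1 hia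
  have h2 : (((Finset.range n).filter fun i => kill u i ≠ u i).card : ℝ) ≤
      ∑ a ∈ Finset.Ico 1 n, (((Finset.range n).filter fun i => i ∈ kset u a).card : ℝ) := by
    have := (Finset.card_le_card h1).trans Finset.card_biUnion_le
    exact_mod_cast this
  refine h2.trans ?_
  have h3 : ∀ a ∈ Finset.Ico 1 n, (((Finset.range n).filter fun i => i ∈ kset u a).card : ℝ) ≤
      (if a < a0 then (16 : ℝ) ^ a * (((Finset.range n).filter fun p => Viol u p a).card : ℝ)
        else (0 : ℝ)) + (if a < a0 then (0 : ℝ) else 4 * (n : ℝ) * (1 / 2 : ℝ) ^ a) := by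
    intro a ha
    rw [Finset.mem_Ico] at ha
    by_cases h : a < a0
    · rw [if_pos h, if_pos h, add_zero]
      exact_mod_cast kset_small u a n
    · rw [if_neg h, if_neg h, zero_add]
      have h4 : (2 : ℝ) ^ a * ((Finset.range n).filter fun i => i ∈ kset u a).card ≤ 4 * n := by
        exact_mod_cast kset_range u a ha.1 n
      rw [one_div, inv_pow, ← div_eq_mul_inv, le_div_iff₀ (by positivity)]
      linarith
  refine (Finset.sum_le_sum h3).trans ?_
  rw [Finset.sum_add_distrib]
  refine add_le_add ?_ ?_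
  · rw [← Finset.sum_filter]
    apply Finset.sum_le_sum_of_subset_of_nonneg
    · intro a ha
      rw [Finset.mem_filter, Finset.mem_Ico] at ha
      rw [Finset.mem_Ico]
      exact ⟨ha.1.1, ha.2⟩
    · intro a _ _; positivity
  · have h5 : ∀ a, (if a < a0 then (0 : ℝ) else 4 * n * (1 / 2) ^ a) =
        4 * n * (if a < a0 then 0 else (1 / 2) ^ a) := by
      intro a; split_ifs <;> simp
    simp_rw [h5]
    rw [← Finset.mul_sum]
    have h6 : ∑ a ∈ Finset.Ico 1 n, (if a < a0 then (0 : ℝ) else (1 / 2) ^ a) ≤ 2 / 2 ^ a0 := by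
      have h7 : ∀ m : ℕ, ∑ a ∈ Finset.range m, (if a < a0 then (0 : ℝ) else (1 / 2) ^ a) ≤
          2 / 2 ^ a0 - (if m < a0 then 0 else 2 / 2 ^ m) := by
        intro m
        induction m with
        | zero =>
          simp only [Finset.range_zero, Finset.sum_empty]
          split_ifs with h
          · rw [sub_zero]; positivity
          · have : a0 = 0 := by omega
            subst this; simp
        | succ m ih =>
          rw [Finset.sum_range_succ]
          by_cases h : m < a0
          · rw [if_pos h] at ih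
            rw [if_pos h]
            split_ifs with h'
            · linarith
            · have : a0 = m + 1 := by omega
              rw [this]
              have hih : ∑ a ∈ Finset.range m, (if a < a0 then (0 : ℝ) else (1 / 2) ^ a) = 0 := by
                apply Finset.sum_eq_zero
                intro a ha
                rw [Finset.mem_range] at ha
                rw [if_pos (by omega)]
              rw [this] at hih
              rw [hih]; simp
          · rw [if_neg h] at ih
            rw [if_neg h, if_neg (by omega)]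
            have e : (2 : ℝ) / 2 ^ m = (1 / 2) ^ m + 2 / 2 ^ (m + 1) := by
              rw [one_div, inv_pow, pow_succ]; field_simp; norm_num
            linarith
      have h8 : ∑ a ∈ Finset.Ico 1 n, (if a < a0 then (0 : ℝ) else (1 / 2) ^ a) ≤
          ∑ a ∈ Finset.range n, (if a < a0 then (0 : ℝ) else (1 / 2) ^ a) := by
        apply Finset.sum_le_sum_of_subset_of_nonneg
        · intro a ha
          rw [Finset.mem_Ico] at ha
          exact Finset.mem_range.mpr ha.2
        · intro a _ _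
          split_ifs <;> positivity
      have h9 := h7 n
      have h10 : (0 : ℝ) ≤ (if n < a0 then 0 else 2 / 2 ^ n) := by split_ifs <;> positivity
      linarith
    calc 4 * (n : ℝ) * ∑ a ∈ Finset.Ico 1 n, (if a < a0 then (0 : ℝ) else (1 / 2) ^ a)
        ≤ 4 * (n : ℝ) * (2 / 2 ^ a0) := mul_le_mul_of_nonneg_left h6 (by positivity)
      _ = 8 / 2 ^ a0 * n := by ring

lemma mism_mono {y u : ℕ → Fin 3} (h : ∀ i, y i = u i ∨ y i = 2) (p n : ℕ) : mism u p n ≤ mism y p n := by
  classical
  apply Finset.card_le_card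
  intro i hi
  rw [Finset.mem_filter] at hi ⊢
  refine ⟨hi.1, ?_⟩
  rcases h (p + i) with h1 | h1
  · rw [h1]; exact hi.2
  · rw [h1]; exact (xx_ne_two i).symm

lemma kill_or (u : ℕ → Fin 3) (i : ℕ) : kill u i = u i ∨ kill u i = 2 := by
  unfold kill; split_ifs
  · exact Or.inr rfl
  · exact Or.inl rfl

lemma not_free_of_viol {u : ℕ → Fin 3} {r a : ℕ} (ha : 1 ≤ a) (h : Viol (kill u) r a) : ¬ Free r a := by
  classical
  intro hf
  have h1 : Viol u r a := fun j h1 h2 => (Nat.mul_le_mul_left _ (mism_mono (kill_or u) r _)).trans (h j h1 h2)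
  have h2 := h a le_rfl (by omega)
  have h3 : mism (kill u) r (16 ^ a) = 16 ^ a := by
    unfold mism
    rw [Finset.filter_true_of_mem, Finset.card_range]
    intro i hi
    rw [Finset.mem_range] at hi
    have : kill u (r + i) = 2 := by
      unfold kill
      rw [if_pos ⟨a, ha, r, h1, hf, by omega, by omega⟩]
    rw [this]; exact (xx_ne_two i).symm
  rw [h3] at h2
  have : 1 ≤ 16 ^ a := Nat.one_le_pow _ _ (by norm_num)
  omega

lemma sqrt_add_le (p n : ℕ) : Nat.sqrt (p + n) ≤ Nat.sqrt p + Nat.sqrt n + 1 := by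
  have h1 := Nat.lt_succ_sqrt' p
  have h2 := Nat.lt_succ_sqrt' n
  have h3 : Nat.sqrt (p + n) < Nat.sqrt p + Nat.sqrt n + 2 := by
    rw [Nat.sqrt_lt']
    simp only [Nat.succ_eq_add_one] at h1 h2
    nlinarith [Nat.zero_le ((Nat.sqrt p + 1) * (Nat.sqrt n + 1))]
  omega

lemma kill_mem (u : ℕ → Fin 3) : kill u ∈ XX := by
  classical
  intro a ha p n
  set S := (Finset.range n).filter fun q => Viol (kill u) (p + q) a with hS
  have hS1 : ∀ q ∈ S, q < n ∧ (Nat.sqrt (p + q) + 1) ^ 2 < p + q + 16 ^ (2 * a) := by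
    intro q hq
    rw [hS, Finset.mem_filter, Finset.mem_range] at hq
    have := not_free_of_viol ha hq.2
    unfold Free at this
    exact ⟨hq.1, not_le.mp this⟩
  have h1 : S.card ≤ 16 ^ (2 * a) * (S.image fun q => Nat.sqrt (p + q) + 1).card := by
    apply Finset.card_le_mul_card_image
    intro s hs
    have h2 : (S.filter fun q => Nat.sqrt (p + q) + 1 = s) ⊆
        (Finset.Ico (s ^ 2 - 16 ^ (2 * a)) (s ^ 2)).image (fun r => r - p) := by
      intro q hq
      rw [Finset.mem_filter] at hq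
      have h3 := (hS1 q hq.1).2
      rw [hq.2] at h3
      have h4 : p + q < (Nat.sqrt (p + q) + 1) ^ 2 := Nat.lt_succ_sqrt' _
      rw [hq.2] at h4
      rw [Finset.mem_image]
      exact ⟨p + q, Finset.mem_Ico.mpr ⟨by omega, h4⟩, by omega⟩
    refine (Finset.card_le_card h2).trans (Finset.card_image_le.trans ?_)
    rw [Nat.card_Ico]
    generalize 16 ^ (2 * a) = W
    generalize s ^ 2 = T
    omega
  have h2 : (S.image fun q => Nat.sqrt (p + q) + 1) ⊆
      Finset.Ico (Nat.sqrt p + 1) (Nat.sqrt p + 1 + (Nat.sqrt n + 2)) := by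
    intro s hs
    obtain ⟨q, hq, rfl⟩ := Finset.mem_image.mp hs
    have h3 := (hS1 q hq).1
    have h4 : Nat.sqrt p ≤ Nat.sqrt (p + q) := Nat.sqrt_le_sqrt (by omega)
    have h5 : Nat.sqrt (p + q) ≤ Nat.sqrt (p + n) := Nat.sqrt_le_sqrt (by omega)
    have h6 := sqrt_add_le p n
    rw [Finset.mem_Ico]
    omega
  have h3 := Finset.card_le_card h2
  rw [Nat.card_Ico, Nat.add_sub_cancel_left] at h3
  exact h1.trans (Nat.mul_le_mul_left _ h3)


/-! ### The metric and the key estimate -/

section Key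

attribute [local instance] PiNat.metricSpace

/-- the shift -/
def shift (y : ℕ → Fin 3) : ℕ → Fin 3 := fun n => y (n + 1)

lemma shift_iter (y : ℕ → Fin 3) (i m : ℕ) : (shift^[i] y) m = y (i + m) := by
  induction i generalizing y m with
  | zero => simp
  | succ i ih =>
    rw [Function.iterate_succ_apply, ih]
    unfold shift
    congr 1; ring

lemma dist_le_one (x y : ℕ → Fin 3) : dist x y ≤ 1 := PiNat.dist_le_one x y

lemma dist_le_pow {x y : ℕ → Fin 3} {n : ℕ} (h : ∀ i < n, x i = y i) : dist x y ≤ (1 / 2) ^ n :=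
  PiNat.mem_cylinder_iff_dist_le.mp (PiNat.mem_cylinder_iff.mpr h)

lemma dist_eq_one {x y : ℕ → Fin 3} (h : x 0 ≠ y 0) : dist x y = 1 := by
  apply le_antisymm (dist_le_one x y)
  by_contra hcon
  rw [not_le] at hcon
  exact h (PiNat.apply_eq_of_dist_lt (n := 0) (by simpa using hcon) le_rfl)

/-- a time at which the pseudo-orbit jumps -/
def Bad (xs : ℕ → (ℕ → Fin 3)) (w t : ℕ) : Prop := (1 / 2 : ℝ) ^ w ≤ dist (shift (xs t)) (xs (t + 1))

lemma follow {xs : ℕ → (ℕ → Fin 3)} {w : ℕ} (m : ℕ) : ∀ i r, (∀ t, i ≤ t → t < i + m → ¬ Bad xs w t) →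
    m + r ≤ w → xs i (m + r) = xs (i + m) r := by
  induction m with
  | zero => intro i r _ _; simp
  | succ m ih =>
    intro i r h hw
    have h1 : dist (shift (xs i)) (xs (i + 1)) < (1 / 2) ^ w := not_le.mp (h i le_rfl (by omega))
    have h2 := PiNat.apply_eq_of_dist_lt h1 (i := m + r) (by omega)
    have h3 := ih (i + 1) r (fun t ht1 ht2 => h t (by omega) (by omega)) (by omega)
    have e1 : m + 1 + r = m + r + 1 := by ring
    have e2 : i + (m + 1) = i + 1 + m := by ring
    rw [e1, e2, ← h3, ← h2]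
    rfl

lemma follow0 {xs : ℕ → (ℕ → Fin 3)} {w i m : ℕ} (h : ∀ t, i ≤ t → t < i + w → ¬ Bad xs w t)
    (hm : m ≤ w) : xs i m = xs (i + m) 0 :=
  follow m i 0 (fun t h1 h2 => h t h1 (by omega)) (by omega)

/-- the sum of the jumps -/
noncomputable def Sd (xs : ℕ → (ℕ → Fin 3)) (n : ℕ) : ℝ :=
  ∑ t ∈ Finset.range n, dist (shift (xs t)) (xs (t + 1))

lemma Sd_mono (xs : ℕ → (ℕ → Fin 3)) {m n : ℕ} (h : m ≤ n) : Sd xs m ≤ Sd xs n :=
  Finset.sum_le_sum_of_subset_of_nonneg (Finset.range_subset_range.mpr h) fun _ _ _ => dist_nonneg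

lemma Sd_nonneg (xs : ℕ → (ℕ → Fin 3)) (n : ℕ) : 0 ≤ Sd xs n :=
  Finset.sum_nonneg fun _ _ => dist_nonneg

open Classical in
lemma bad_count (xs : ℕ → (ℕ → Fin 3)) (w n : ℕ) :
    (((Finset.range n).filter fun t => Bad xs w t).card : ℝ) ≤ 2 ^ w * Sd xs n := by
  have h1 : (((Finset.range n).filter fun t => Bad xs w t).card : ℝ) * (1 / 2) ^ w ≤ Sd xs n := by
    calc (((Finset.range n).filter fun t => Bad xs w t).card : ℝ) * (1 / 2) ^ w
        = ∑ t ∈ (Finset.range n).filter (fun t => Bad xs w t), (1 / 2 : ℝ) ^ w := by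
          rw [Finset.sum_const, nsmul_eq_mul]
      _ ≤ ∑ t ∈ (Finset.range n).filter (fun t => Bad xs w t), dist (shift (xs t)) (xs (t + 1)) :=
          Finset.sum_le_sum fun t ht => (Finset.mem_filter.mp ht).2
      _ ≤ Sd xs n := Finset.sum_le_sum_of_subset_of_nonneg (Finset.filter_subset _ _)
          fun _ _ _ => dist_nonneg
  have h2 : (0 : ℝ) < 2 ^ w := by positivity
  have h3 : (2 : ℝ) ^ w * (1 / 2) ^ w = 1 := by rw [← mul_pow]; norm_num
  calc (((Finset.range n).filter fun t => Bad xs w t).card : ℝ)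
      = 2 ^ w * ((((Finset.range n).filter fun t => Bad xs w t).card : ℝ) * (1 / 2) ^ w) := by
        rw [mul_comm _ ((1 / 2 : ℝ) ^ w), ← mul_assoc, h3, one_mul]
    _ ≤ _ := mul_le_mul_of_nonneg_left h1 h2.le

/-- a time before a jump -/
def NotGood (xs : ℕ → (ℕ → Fin 3)) (w i : ℕ) : Prop := ∃ t, i ≤ t ∧ t < i + w ∧ Bad xs w t

open Classical in
lemma notGood_count (xs : ℕ → (ℕ → Fin 3)) (w n : ℕ) :
    (((Finset.range n).filter fun i => NotGood xs w i).card : ℝ) ≤ w * 2 ^ w * Sd xs (n + w) := by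
  have h1 : (Finset.range n).filter (fun i => NotGood xs w i) ⊆
      ((Finset.range (n + w)).filter fun t => Bad xs w t).biUnion fun t => Finset.Icc (t + 1 - w) t := by
    intro i hi
    rw [Finset.mem_filter, Finset.mem_range] at hi
    obtain ⟨t, h2, h3, h4⟩ := hi.2
    exact Finset.mem_biUnion.mpr ⟨t, Finset.mem_filter.mpr ⟨Finset.mem_range.mpr (by omega), h4⟩,
      Finset.mem_Icc.mpr ⟨by omega, h2⟩⟩
  have h2 : ((Finset.range n).filter fun i => NotGood xs w i).card ≤
      ((Finset.range (n + w)).filter fun t => Bad xs w t).card * w := by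
    refine (Finset.card_le_card h1).trans (Finset.card_biUnion_le_card_mul _ _ _ ?_)
    intro t _
    rw [Nat.card_Icc]; omega
  have h3 : (((Finset.range n).filter fun i => NotGood xs w i).card : ℝ) ≤
      ((Finset.range (n + w)).filter fun t => Bad xs w t).card * w := by exact_mod_cast h2
  refine h3.trans ?_
  have h4 := mul_le_mul_of_nonneg_right (bad_count xs w (n + w)) (Nat.cast_nonneg (α := ℝ) w)
  linarith

lemma viol_congr {y u : ℕ → Fin 3} {q i a : ℕ}
    (h : ∀ m < 16 ^ (2 * a), y (q + m) = u (i + m)) : Viol y q a ↔ Viol u i a := by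
  classical
  have : ∀ j, j ≤ 2 * a → mism y q (16 ^ j) = mism u i (16 ^ j) := by
    intro j hj
    unfold mism
    congr 1
    apply Finset.filter_congr
    intro m hm
    rw [Finset.mem_range] at hm
    rw [h m (lt_of_lt_of_le hm (Nat.pow_le_pow_right (by norm_num) hj))]
  constructor
  · intro hv j h1 h2
    rw [← this j h2]; exact hv j h1 h2
  · intro hv j h1 h2
    rw [this j h2]; exact hv j h1 h2

open Classical in
lemma viol_count (xs : ℕ → (ℕ → Fin 3)) (hxs : ∀ i, xs i ∈ XX) (a : ℕ) (ha : 1 ≤ a) (w n : ℕ) :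
    w * ((Finset.range n).filter fun r => Viol (fun i => xs i 0) r a).card ≤
      w * w + (n * phi a w +
        w * ((Finset.range n).filter fun i => NotGood xs (w + 16 ^ (2 * a)) i).card) := by
  set u : ℕ → Fin 3 := fun i => xs i 0 with hu
  set V := ((Finset.range n).filter fun r => Viol u r a).card with hV
  have h1 : ∀ q ∈ Finset.range w, V ≤ ((Finset.range n).filter fun i => Viol u (i + q) a).card + w := by
    intro q hq
    rw [Finset.mem_range] at hq
    have h2 : (Finset.range n).filter (fun r => Viol u r a) ⊆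
        ((Finset.range n).filter fun i => Viol u (i + q) a).image (fun i => i + q) ∪ Finset.range w := by
      intro r hr
      rw [Finset.mem_filter, Finset.mem_range] at hr
      rw [Finset.mem_union, Finset.mem_image, Finset.mem_range]
      by_cases h3 : r < w
      · exact Or.inr h3
      · left
        refine ⟨r - q, Finset.mem_filter.mpr ⟨Finset.mem_range.mpr (by omega), ?_⟩, by omega⟩
        have e : r - q + q = r := by omega
        rw [e]; exact hr.2
    refine (Finset.card_le_card h2).trans ((Finset.card_union_le _ _).trans ?_)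
    rw [Finset.card_range]
    exact Nat.add_le_add_right Finset.card_image_le _
  have h2 : w * V ≤ ∑ q ∈ Finset.range w, (((Finset.range n).filter fun i => Viol u (i + q) a).card + w) := by
    calc w * V = ∑ q ∈ Finset.range w, V := by rw [Finset.sum_const, Finset.card_range, smul_eq_mul]
      _ ≤ _ := Finset.sum_le_sum h1
  rw [Finset.sum_add_distrib, Finset.sum_const, Finset.card_range, smul_eq_mul] at h2
  have h3 : ∑ q ∈ Finset.range w, ((Finset.range n).filter fun i => Viol u (i + q) a).card =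
      ∑ i ∈ Finset.range n, ((Finset.range w).filter fun q => Viol u (i + q) a).card := by
    simp_rw [Finset.card_filter]
    rw [Finset.sum_comm]
  have h4 : ∀ i ∈ Finset.range n, ((Finset.range w).filter fun q => Viol u (i + q) a).card ≤
      phi a w + (if NotGood xs (w + 16 ^ (2 * a)) i then w else 0) := by
    intro i _
    by_cases hg : NotGood xs (w + 16 ^ (2 * a)) i
    · rw [if_pos hg]
      have := Finset.card_filter_le (Finset.range w) (fun q => Viol u (i + q) a)
      rw [Finset.card_range] at this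
      omega
    · rw [if_neg hg, add_zero]
      have h5 : (Finset.range w).filter (fun q => Viol u (i + q) a) =
          (Finset.range w).filter fun q => Viol (xs i) (0 + q) a := by
        apply Finset.filter_congr
        intro q hq
        rw [Finset.mem_range] at hq
        apply (viol_congr _).symm
        intro m hm
        rw [hu]
        rw [follow0 (xs := xs) (w := w + 16 ^ (2 * a)) (i := i) (m := 0 + q + m) ?_ (by omega)]
        · simp only
          congr 1; ring
        · intro t h6 h7 h8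
          exact hg ⟨t, h6, h7, h8⟩
      rw [h5]
      exact hxs i a ha 0 w
  rw [h3] at h2
  have h5 := Finset.sum_le_sum h4
  rw [Finset.sum_add_distrib, Finset.sum_const, Finset.card_range, smul_eq_mul, ← Finset.sum_filter,
    Finset.sum_const, smul_eq_mul, mul_comm _ w] at h5
  omega

/-- bounds of the form `o(n) + O(sum of the jumps)` -/
def Sm (F : (ℕ → (ℕ → Fin 3)) → ℕ → ℝ) : Prop :=
  ∀ η > 0, ∃ B : ℝ, 0 ≤ B ∧ ∃ w : ℕ, ∀ xs : ℕ → (ℕ → Fin 3), (∀ i, xs i ∈ XX) → ∀ n : ℕ,
    F xs n ≤ η * n + B + B * Sd xs (n + w)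

lemma Sm.add {F G : (ℕ → (ℕ → Fin 3)) → ℕ → ℝ} (hF : Sm F) (hG : Sm G) :
    Sm fun xs n => F xs n + G xs n := by
  intro η hη
  obtain ⟨B, hB, w, h⟩ := hF (η / 2) (by positivity)
  obtain ⟨B', hB', w', h'⟩ := hG (η / 2) (by positivity)
  refine ⟨B + B', by positivity, w + w', fun xs hxs n => ?_⟩
  have h1 := h xs hxs n
  have h2 := h' xs hxs n
  have h3 := mul_le_mul_of_nonneg_left (Sd_mono xs (show n + w ≤ n + (w + w') by omega)) hB
  have h4 := mul_le_mul_of_nonneg_left (Sd_mono xs (show n + w' ≤ n + (w + w') by omega)) hB'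
  simp only
  linarith

lemma Sm.mul {F : (ℕ → (ℕ → Fin 3)) → ℕ → ℝ} (hF : Sm F) {c : ℝ} (hc : 0 ≤ c) :
    Sm fun xs n => c * F xs n := by
  intro η hη
  obtain ⟨B, hB, w, h⟩ := hF (η / (c + 1)) (by positivity)
  refine ⟨c * B, by positivity, w, fun xs hxs n => ?_⟩
  have h1 := mul_le_mul_of_nonneg_left (h xs hxs n) hc
  have h2 : c * (η / (c + 1)) ≤ η := by
    rw [mul_div_assoc']
    rw [div_le_iff₀ (by positivity)]
    nlinarith
  have h3 := mul_le_mul_of_nonneg_right h2 (Nat.cast_nonneg (α := ℝ) n)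
  simp only
  calc c * F xs n ≤ c * (η / (c + 1) * n + B + B * Sd xs (n + w)) := h1
    _ = c * (η / (c + 1)) * n + c * B + c * B * Sd xs (n + w) := by ring
    _ ≤ _ := by linarith

lemma Sm.zero : Sm fun _ _ => 0 := by
  intro η hη
  refine ⟨0, le_rfl, 0, fun xs _ n => ?_⟩
  simp only [zero_mul, add_zero]
  positivity

lemma Sm.sum (s : Finset ℕ) (F : ℕ → (ℕ → (ℕ → Fin 3)) → ℕ → ℝ) (hF : ∀ a ∈ s, Sm (F a)) :
    Sm fun xs n => ∑ a ∈ s, F a xs n := by
  classical
  induction s using Finset.induction_on with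
  | empty => simpa using Sm.zero
  | insert a s ha ih =>
    have h1 := (hF a (Finset.mem_insert_self a s)).add (ih fun b hb => hF b (Finset.mem_insert_of_mem hb))
    refine fun η hη => ?_
    obtain ⟨B, hB, w, h⟩ := h1 η hη
    refine ⟨B, hB, w, fun xs hxs n => ?_⟩
    have := h xs hxs n
    simp only at this ⊢
    rw [Finset.sum_insert ha]
    exact this

lemma Sm.shift {F : (ℕ → (ℕ → Fin 3)) → ℕ → ℝ} (hF : Sm F) (k : ℕ) : Sm fun xs n => F xs (n + k) := by
  intro η hη
  obtain ⟨B, hB, w, h⟩ := hF η hη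
  refine ⟨B + η * k, by positivity, k + w, fun xs hxs n => ?_⟩
  have h1 := h xs hxs (n + k)
  push_cast at h1
  have h2 : Sd xs (n + k + w) = Sd xs (n + (k + w)) := by rw [add_assoc]
  rw [h2] at h1
  have h3 : 0 ≤ η * k * Sd xs (n + (k + w)) := mul_nonneg (by positivity) (Sd_nonneg _ _)
  simp only
  nlinarith

lemma Sm.mono {F G : (ℕ → (ℕ → Fin 3)) → ℕ → ℝ} (hG : Sm G)
    (h : ∀ xs, (∀ i, xs i ∈ XX) → ∀ n, F xs n ≤ G xs n) : Sm F := by
  intro η hη
  obtain ⟨B, hB, w, h'⟩ := hG η hη
  exact ⟨B, hB, w, fun xs hxs n => (h xs hxs n).trans (h' xs hxs n)⟩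

open Classical in
lemma notGood_sm (w : ℕ) : Sm fun xs n => (((Finset.range n).filter fun i => NotGood xs w i).card : ℝ) := by
  intro η hη
  refine ⟨w * 2 ^ w, by positivity, w, fun xs _ n => ?_⟩
  have h1 := notGood_count xs w n
  simp only
  have h2 : 0 ≤ η * (n : ℝ) := by positivity
  have h3 : 0 ≤ (w : ℝ) * 2 ^ w := by positivity
  linarith

open Classical in
lemma viol_sm (a : ℕ) (ha : 1 ≤ a) :
    Sm fun xs n => (((Finset.range n).filter fun r => Viol (fun i => xs i 0) r a).card : ℝ) := by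
  intro η hη
  obtain ⟨m, hm⟩ := exists_nat_gt (6 * 16 ^ (2 * a) / η)
  have hm0 : 1 ≤ m := by
    have : (0 : ℝ) < m := lt_trans (by positivity) hm
    exact_mod_cast this
  set w := m ^ 2 with hw
  have hw0 : (0 : ℝ) < w := by rw [hw]; positivity
  have hphi : (phi a w : ℝ) ≤ η / 2 * w := by
    unfold phi
    rw [hw, Nat.sqrt_eq' m]
    push_cast
    rw [div_lt_iff₀ hη] at hm
    have hm1 : (1 : ℝ) ≤ m := by exact_mod_cast hm0
    have h1 : ((m : ℝ) + 2) ≤ 3 * m := by linarith
    calc (16 : ℝ) ^ (2 * a) * (m + 2) ≤ 16 ^ (2 * a) * (3 * m) :=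
          mul_le_mul_of_nonneg_left h1 (by positivity)
      _ = (6 * 16 ^ (2 * a)) * m / 2 := by ring
      _ ≤ (m * η) * m / 2 := by
          apply div_le_div_of_nonneg_right _ (by norm_num)
          exact mul_le_mul_of_nonneg_right hm.le (by positivity)
      _ = η / 2 * m ^ 2 := by ring
  obtain ⟨B, hB, w2, h⟩ := notGood_sm (w + 16 ^ (2 * a)) (η / 2) (by positivity)
  refine ⟨B + w, by positivity, w2, fun xs hxs n => ?_⟩
  have h1 := h xs hxs n
  have h2 : (w : ℝ) * ((Finset.range n).filter fun r => Viol (fun i => xs i 0) r a).card ≤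
      w * w + (n * phi a w +
        w * ((Finset.range n).filter fun i => NotGood xs (w + 16 ^ (2 * a)) i).card) := by
    exact_mod_cast viol_count xs hxs a ha w n
  have h3 : (w : ℝ) * ((Finset.range n).filter fun r => Viol (fun i => xs i 0) r a).card ≤
      w * (w + (n * (η / 2) + (η / 2 * n + B + B * Sd xs (n + w2)))) := by
    refine h2.trans ?_
    have h4 : (n : ℝ) * phi a w ≤ n * (η / 2 * w) := mul_le_mul_of_nonneg_left hphi (by positivity)
    have h5 := mul_le_mul_of_nonneg_left h1 hw0.le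
    simp only at h5
    calc _ ≤ (w : ℝ) * w + (n * (η / 2 * w) + w * (η / 2 * n + B + B * Sd xs (n + w2))) := by linarith
      _ = _ := by ring
  have h4 := le_of_mul_le_mul_left h3 hw0
  have h5 : 0 ≤ (w : ℝ) * Sd xs (n + w2) := mul_nonneg hw0.le (Sd_nonneg _ _)
  simp only
  linarith

open Classical in
lemma kill_sm : Sm fun xs n =>
    (((Finset.range n).filter fun i => kill (fun i => xs i 0) i ≠ xs i 0).card : ℝ) := by
  intro η hη
  obtain ⟨a0, ha0⟩ : ∃ a0 : ℕ, 8 / 2 ^ a0 ≤ η / 2 := by
    obtain ⟨a0, h⟩ := exists_pow_lt_of_lt_one (show (0 : ℝ) < η / 16 by positivity)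
      (show (1 / 2 : ℝ) < 1 by norm_num)
    refine ⟨a0, ?_⟩
    rw [one_div, inv_pow] at h
    rw [div_eq_mul_inv]; linarith
  have h1 : Sm fun xs n => ∑ a ∈ Finset.Ico 1 a0, (16 : ℝ) ^ a *
      ((Finset.range n).filter fun p => Viol (fun i => xs i 0) p a).card :=
    Sm.sum _ _ fun a ha => (viol_sm a (Finset.mem_Ico.mp ha).1).mul (by positivity)
  obtain ⟨B, hB, w, h⟩ := h1 (η / 2) (by positivity)
  refine ⟨B, hB, w, fun xs hxs n => ?_⟩
  have h2 := h xs hxs n
  have h3 := kill_count (fun i => xs i 0) a0 n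
  have h4 := mul_le_mul_of_nonneg_right ha0 (Nat.cast_nonneg (α := ℝ) n)
  simp only at h2 h3 ⊢
  linarith

open Classical in
/-- the key estimate -/
lemma key_sm : Sm fun xs n =>
    ∑ i ∈ Finset.range n, dist (shift^[i] (kill fun i => xs i 0)) (xs i) := by
  intro η hη
  obtain ⟨h, hh⟩ := exists_pow_lt_of_lt_one (show (0 : ℝ) < η / 2 by positivity)
    (show (1 / 2 : ℝ) < 1 by norm_num)
  have h1 := (notGood_sm h).add ((kill_sm.shift h).mul (Nat.cast_nonneg (α := ℝ) h))
  obtain ⟨B, hB, w, hb⟩ := h1 (η / 2) (by positivity)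
  refine ⟨B, hB, w, fun xs hxs n => ?_⟩
  have h2 := hb xs hxs n
  set u : ℕ → Fin 3 := fun i => xs i 0 with hu
  have h3 : ∀ i ∈ Finset.range n, dist (shift^[i] (kill u)) (xs i) ≤ (1 / 2) ^ h +
      ((if NotGood xs h i then (1 : ℝ) else 0) + if (∃ m < h, kill u (i + m) ≠ u (i + m)) then (1 : ℝ) else 0) := by
    intro i _
    by_cases hg : NotGood xs h i
    · rw [if_pos hg]
      have h4 := dist_le_one (shift^[i] (kill u)) (xs i)
      have h5 : (0 : ℝ) ≤ (1 / 2) ^ h := by positivity
      split_ifs <;> linarith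
    · rw [if_neg hg]
      by_cases hk : ∃ m < h, kill u (i + m) ≠ u (i + m)
      · rw [if_pos hk]
        have h4 := dist_le_one (shift^[i] (kill u)) (xs i)
        have h5 : (0 : ℝ) ≤ (1 / 2) ^ h := by positivity
        linarith
      · rw [if_neg hk, add_zero, add_zero]
        apply dist_le_pow
        intro m hm
        rw [shift_iter]
        have h4 : kill u (i + m) = u (i + m) := by
          by_contra hcon
          exact hk ⟨m, hm, hcon⟩
        rw [h4, hu]
        exact (follow0 (fun t h6 h7 h8 => hg ⟨t, h6, h7, h8⟩) hm.le).symm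
  have h4 := Finset.sum_le_sum h3
  rw [Finset.sum_add_distrib, Finset.sum_add_distrib, Finset.sum_const, Finset.card_range,
    nsmul_eq_mul, ← Finset.sum_filter, ← Finset.sum_filter, Finset.sum_const, Finset.sum_const,
    nsmul_eq_mul, nsmul_eq_mul, mul_one, mul_one] at h4
  have h5 : ((Finset.range n).filter fun i => ∃ m < h, kill u (i + m) ≠ u (i + m)).card ≤
      ((Finset.range (n + h)).filter fun i => kill u i ≠ u i).card * h := by
    have h6 : (Finset.range n).filter (fun i => ∃ m < h, kill u (i + m) ≠ u (i + m)) ⊆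
        ((Finset.range (n + h)).filter fun i => kill u i ≠ u i).biUnion
          fun t => Finset.Icc (t + 1 - h) t := by
      intro i hi
      rw [Finset.mem_filter, Finset.mem_range] at hi
      obtain ⟨m, hm, hm2⟩ := hi.2
      exact Finset.mem_biUnion.mpr ⟨i + m, Finset.mem_filter.mpr ⟨Finset.mem_range.mpr (by omega), hm2⟩,
        Finset.mem_Icc.mpr ⟨by omega, by omega⟩⟩
    refine (Finset.card_le_card h6).trans (Finset.card_biUnion_le_card_mul _ _ _ ?_)
    intro t _
    rw [Nat.card_Icc]; omega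
  have h6 : (((Finset.range n).filter fun i => ∃ m < h, kill u (i + m) ≠ u (i + m)).card : ℝ) ≤
      ((Finset.range (n + h)).filter fun i => kill u i ≠ u i).card * h := by exact_mod_cast h5
  have h7 := mul_le_mul_of_nonneg_left hh.le (Nat.cast_nonneg (α := ℝ) n)
  simp only at h2 ⊢
  rw [mul_comm (h : ℝ)] at h2
  linarith

end Key


/-! ### The counterexample -/

section Example

attribute [local instance] PiNat.metricSpace

lemma isOpen_of_local (P : (ℕ → Fin 3) → Prop) (N : ℕ)
    (h : ∀ y y' : ℕ → Fin 3, (∀ i < N, y' i = y i) → P y → P y') : IsOpen {y | P y} := by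
  rw [isOpen_iff_mem_nhds]
  intro y hy
  refine Filter.mem_of_superset ((PiNat.isOpen_cylinder _ y N).mem_nhds (PiNat.self_mem_cylinder y N)) ?_
  intro y' hy'
  exact h y y' (PiNat.mem_cylinder_iff.mp hy') hy

lemma isClosed_of_local (P : (ℕ → Fin 3) → Prop) (N : ℕ)
    (h : ∀ y y' : ℕ → Fin 3, (∀ i < N, y' i = y i) → P y → P y') : IsClosed {y | P y} := by
  rw [← isOpen_compl_iff]
  apply isOpen_of_local (fun y => ¬ P y) N
  intro y y' hyy hy hy'
  exact hy (h y' y (fun i hi => (hyy i hi).symm) hy')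

lemma viol_local {y y' : ℕ → Fin 3} {N p a : ℕ} (h : ∀ i < N, y' i = y i) (hN : p + 16 ^ (2 * a) ≤ N) :
    Viol y p a ↔ Viol y' p a :=
  viol_congr fun m hm => (h (p + m) (by omega)).symm

lemma XX_closed : IsClosed XX := by
  classical
  have h1 : XX = ⋂ a : ℕ, ⋂ (_ : 1 ≤ a), ⋂ p : ℕ, ⋂ n : ℕ,
      {y | ((Finset.range n).filter fun q => Viol y (p + q) a).card ≤ phi a n} := by
    ext y; simp only [XX, Set.mem_ofPred_eq, Set.mem_iInter]
  rw [h1]
  refine isClosed_iInter fun a => isClosed_iInter fun _ => isClosed_iInter fun p =>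
    isClosed_iInter fun n => ?_
  apply isClosed_of_local _ (p + n + 16 ^ (2 * a))
  intro y y' hyy hy
  have : ((Finset.range n).filter fun q => Viol y (p + q) a) =
      (Finset.range n).filter fun q => Viol y' (p + q) a := by
    apply Finset.filter_congr
    intro q hq
    rw [Finset.mem_range] at hq
    exact viol_local hyy (by omega)
  rw [← this]; exact hy

lemma AA_closed : IsClosed AA := by
  have h1 : AA = ⋂ a : ℕ, ⋂ (_ : 1 ≤ a), ⋂ p : ℕ, {y | ¬ Viol y p a} := by
    ext y; simp only [AA, Set.mem_ofPred_eq, Set.mem_iInter]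
  rw [h1]
  refine isClosed_iInter fun a => isClosed_iInter fun _ => isClosed_iInter fun p => ?_
  apply isClosed_of_local _ (p + 16 ^ (2 * a))
  intro y y' hyy hy
  rwa [← viol_local hyy le_rfl]

lemma viol_shift (y : ℕ → Fin 3) (p a : ℕ) : Viol (shift y) p a ↔ Viol y (p + 1) a := by
  apply viol_congr
  intro m _
  unfold shift
  congr 1; ring

lemma shift_XX {y : ℕ → Fin 3} (hy : y ∈ XX) : shift y ∈ XX := by
  classical
  intro a ha p n
  have : ((Finset.range n).filter fun q => Viol (shift y) (p + q) a) =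
      (Finset.range n).filter fun q => Viol y (p + 1 + q) a := by
    apply Finset.filter_congr
    intro q _
    rw [viol_shift]
    have : p + q + 1 = p + 1 + q := by ring
    rw [this]
  rw [this]; exact hy a ha (p + 1) n

lemma shift_AA {y : ℕ → Fin 3} (hy : y ∈ AA) : shift y ∈ AA := by
  intro a ha p
  rw [viol_shift]
  exact hy a ha (p + 1)

lemma continuous_shift : Continuous shift := continuous_pi fun n => continuous_apply (n + 1)

/-- the space of the example -/
abbrev Xt : Type := {y : ℕ → Fin 3 // y ∈ XX}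

/-- the map of the example -/
def ff (y : Xt) : Xt := ⟨shift y.1, shift_XX y.2⟩

/-- the subset of the example -/
def At : Set Xt := {y | y.1 ∈ AA}

instance : CompactSpace Xt := isCompact_iff_compactSpace.mp XX_closed.isCompact

lemma continuous_ff : Continuous ff :=
  Continuous.subtype_mk (continuous_shift.comp continuous_subtype_val) _

lemma At_closed : IsClosed At := AA_closed.preimage continuous_subtype_val

lemma ff_iter (y : Xt) (i : ℕ) : (ff^[i] y).1 = shift^[i] y.1 := by
  induction i generalizing y with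
  | zero => rfl
  | succ i ih => rw [Function.iterate_succ_apply, Function.iterate_succ_apply, ih]; rfl

/-- the violations at `(q, a)` -/
def Uq (a q : ℕ) : Set Xt := {y | Viol y.1 q a}

lemma Uq_open (a q : ℕ) : IsOpen (Uq a q) := by
  have : IsOpen {y : ℕ → Fin 3 | Viol y q a} := by
    apply isOpen_of_local _ (q + 16 ^ (2 * a))
    intro y y' hyy hy
    rwa [← viol_local hyy le_rfl]
  exact this.preimage continuous_subtype_val

lemma Uq_null (a : ℕ) (ha : 1 ≤ a) (p : ℕ) : UniversallyNull ff (Uq a p) := by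
  classical
  let _ : MeasurableSpace Xt := borel Xt
  have : BorelSpace Xt := ⟨rfl⟩
  intro μ hμ hinv
  have hmf : Measurable ff := continuous_ff.measurable
  have hUm : ∀ q, MeasurableSet (Uq a q) := fun q => (Uq_open a q).measurableSet
  have h1 : ∀ q, μ (Uq a (q + 1)) = μ (Uq a q) := by
    intro q
    have : Uq a (q + 1) = ff ⁻¹' (Uq a q) := by
      ext y
      exact (viol_shift y.1 q a).symm
    rw [this, ← Measure.map_apply hmf (hUm q), hinv]
  have h2 : ∀ q, μ (Uq a q) = μ (Uq a 0) := by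
    intro q
    induction q with
    | zero => rfl
    | succ q ih => rw [h1, ih]
  have h3 : ∀ n : ℕ, (n : ENNReal) * μ (Uq a 0) ≤ phi a n := by
    intro n
    calc (n : ENNReal) * μ (Uq a 0) = ∑ q ∈ Finset.range n, μ (Uq a q) := by
          rw [Finset.sum_congr rfl fun q _ => h2 q, Finset.sum_const, Finset.card_range, nsmul_eq_mul]
      _ = ∑ q ∈ Finset.range n, ∫⁻ y, (Uq a q).indicator 1 y ∂μ := by
          refine Finset.sum_congr rfl fun q _ => ?_
          rw [lintegral_indicator_one (hUm q)]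
      _ = ∫⁻ y, ∑ q ∈ Finset.range n, (Uq a q).indicator 1 y ∂μ := by
          rw [lintegral_finsetSum]
          intro q _
          exact measurable_one.indicator (hUm q)
      _ ≤ ∫⁻ _, (phi a n : ENNReal) ∂μ := by
          apply lintegral_mono
          intro y
          have h4 := y.2 a ha 0 n
          simp only [zero_add] at h4
          have h5 : ∑ q ∈ Finset.range n, (Uq a q).indicator (1 : Xt → ENNReal) y =
              (((Finset.range n).filter fun q => Viol y.1 q a).card : ENNReal) := by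
            rw [Finset.card_filter, Nat.cast_sum]
            refine Finset.sum_congr rfl fun q _ => ?_
            by_cases h : Viol y.1 q a
            · rw [Set.indicator_of_mem (show y ∈ Uq a q from h), if_pos h]; simp
            · rw [Set.indicator_of_notMem (show y ∉ Uq a q from h), if_neg h]; simp
          simp only
          rw [h5]
          exact_mod_cast h4
      _ = phi a n := by rw [lintegral_const, measure_univ, mul_one]
  rw [h2 p]
  by_contra hne
  have hfin : μ (Uq a 0) ≠ ⊤ := measure_ne_top _ _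
  have hpos : 0 < (μ (Uq a 0)).toReal := ENNReal.toReal_pos hne hfin
  obtain ⟨m, hm⟩ := exists_nat_gt (3 * 16 ^ (2 * a) / (μ (Uq a 0)).toReal)
  have hm0 : (0 : ℝ) < m := lt_trans (by positivity) hm
  have hm1 : 1 ≤ m := by exact_mod_cast hm0
  have h4 := h3 (m ^ 2)
  have h5 : ((m : ℝ) ^ 2) * (μ (Uq a 0)).toReal ≤ phi a (m ^ 2) := by
    have h6 := ENNReal.toReal_mono (by simp) h4
    rw [ENNReal.toReal_mul] at h6
    simpa using h6
  rw [div_lt_iff₀ hpos] at hm
  unfold phi at h5
  rw [Nat.sqrt_eq' m] at h5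
  push_cast at h5
  have hm1' : (1 : ℝ) ≤ m := by exact_mod_cast hm1
  have h7 : (16 : ℝ) ^ (2 * a) * (m + 2) ≤ 16 ^ (2 * a) * (3 * m) :=
    mul_le_mul_of_nonneg_left (by linarith) (by positivity)
  have h8 := mul_lt_mul_of_pos_right hm hm0
  nlinarith

lemma center_subset : measureCenter ff ⊆ At := by
  intro y hy
  by_contra hcon
  have h1 : ∃ a, 1 ≤ a ∧ ∃ p, Viol y.1 p a := by
    by_contra h2
    apply hcon
    intro a ha p hv
    exact h2 ⟨a, ha, p, hv⟩
  obtain ⟨a, ha, p, hv⟩ := h1
  exact hy ⟨Uq a p, ⟨Uq_open a p, Uq_null a ha p⟩, hv⟩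

lemma ff_AASP : AASP ff Set.univ := by
  intro x _ hx
  refine ⟨⟨kill fun i => (x i).1 0, kill_mem _⟩, trivial, ?_⟩
  have hx' : Tendsto (fun n : ℕ => Sd (fun i => (x i).1) n / (n : ℝ)) atTop (𝓝 0) := hx
  rw [Metric.tendsto_atTop]
  intro ε hε
  obtain ⟨B, hB, w, h⟩ := key_sm (ε / 4) (by positivity)
  have hx2 : Tendsto (fun n : ℕ => Sd (fun i => (x i).1) (n + w) / ((n + w : ℕ) : ℝ)) atTop (𝓝 0) :=
    hx'.comp (tendsto_add_atTop_nat w)
  rw [Metric.tendsto_atTop] at hx2
  obtain ⟨N1, hN1⟩ := hx2 (ε / (8 * (B + 1))) (by positivity)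
  obtain ⟨N2, hN2⟩ := exists_nat_gt (4 * B / ε)
  refine ⟨N1 + N2 + w + 1, fun n hn => ?_⟩
  have hn0 : (0 : ℝ) < n := by
    have : 1 ≤ n := by omega
    exact_mod_cast this
  have h1 := h (fun i => (x i).1) (fun i => (x i).2) n
  have h2 : ∑ i ∈ Finset.range n, dist (ff^[i] (⟨kill fun i => (x i).1 0, kill_mem _⟩ : Xt)) (x i) =
      ∑ i ∈ Finset.range n, dist (shift^[i] (kill fun i => (x i).1 0)) (x i).1 := by
    refine Finset.sum_congr rfl fun i _ => ?_
    rw [Subtype.dist_eq, ff_iter]
  rw [h2, Real.dist_eq, sub_zero, abs_of_nonneg (div_nonneg (Finset.sum_nonneg fun _ _ => dist_nonneg) hn0.le),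
    div_lt_iff₀ hn0]
  refine lt_of_le_of_lt h1 ?_
  have h3 := hN1 n (by omega)
  have hnw : (0 : ℝ) < ((n + w : ℕ) : ℝ) := by
    have : 0 < n + w := by omega
    exact_mod_cast this
  rw [Real.dist_eq, sub_zero, abs_of_nonneg (div_nonneg (Sd_nonneg _ _) hnw.le),
    div_lt_iff₀ hnw] at h3
  have h4 : ((n + w : ℕ) : ℝ) ≤ 2 * n := by
    have : n + w ≤ 2 * n := by omega
    exact_mod_cast this
  have h5 : Sd (fun i => (x i).1) (n + w) ≤ ε / (8 * (B + 1)) * (2 * n) :=
    h3.le.trans (mul_le_mul_of_nonneg_left h4 (by positivity))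
  have h6 : B * Sd (fun i => (x i).1) (n + w) ≤ ε / 4 * n := by
    calc B * Sd (fun i => (x i).1) (n + w) ≤ B * (ε / (8 * (B + 1)) * (2 * n)) :=
          mul_le_mul_of_nonneg_left h5 hB
      _ = (B / (B + 1)) * (ε / 4 * n) := by field_simp; ring
      _ ≤ 1 * (ε / 4 * n) := by
          apply mul_le_mul_of_nonneg_right _ (by positivity)
          rw [div_le_one (by positivity)]; linarith
      _ = _ := one_mul _
  have h7 : B < ε / 4 * n := by
    have : (N2 : ℝ) ≤ n := by
      have : N2 ≤ n := by omega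
      exact_mod_cast this
    rw [div_lt_iff₀ hε] at hN2
    nlinarith
  have h8 : 0 < ε * (n : ℝ) := by positivity
  linarith

lemma ff_ASP : ASP ff Set.univ := by
  intro ε hε
  obtain ⟨B, hB, w, h⟩ := key_sm (ε / 8) (by positivity)
  refine ⟨ε / (16 * (B + 1)), by positivity, fun x _ hx => ?_⟩
  refine ⟨⟨kill fun i => (x i).1 0, kill_mem _⟩, trivial, ?_⟩
  obtain ⟨N1, hN1⟩ := hx
  obtain ⟨N2, hN2⟩ := exists_nat_gt (8 * B / ε)
  refine lt_of_le_of_lt (b := ε / 2) ?_ (by linarith)
  refine Filter.limsup_le_of_le ?_ ?_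
  · refine ⟨0, ?_⟩
    intro a ha
    obtain ⟨N, hN⟩ := Filter.eventually_atTop.mp (Filter.eventually_map.mp ha)
    exact le_trans (div_nonneg (Finset.sum_nonneg fun _ _ => dist_nonneg) (Nat.cast_nonneg _)) (hN N le_rfl)
  · refine Filter.eventually_atTop.mpr ⟨N1 + N2 + w + 1, fun n hn => ?_⟩
    have hn0 : (0 : ℝ) < n := by
      have : 1 ≤ n := by omega
      exact_mod_cast this
    have h1 := h (fun i => (x i).1) (fun i => (x i).2) n
    have h2 : ∑ i ∈ Finset.range n, dist (ff^[i] (⟨kill fun i => (x i).1 0, kill_mem _⟩ : Xt)) (x i) =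
        ∑ i ∈ Finset.range n, dist (shift^[i] (kill fun i => (x i).1 0)) (x i).1 := by
      refine Finset.sum_congr rfl fun i _ => ?_
      rw [Subtype.dist_eq, ff_iter]
    rw [h2, div_le_iff₀ hn0]
    refine h1.trans ?_
    have h3 : Sd (fun i => (x i).1) (n + w) / ((n + w : ℕ) : ℝ) < ε / (16 * (B + 1)) :=
      hN1 (n + w) (by omega) 0
    have hnw : (0 : ℝ) < ((n + w : ℕ) : ℝ) := by
      have : 0 < n + w := by omega
      exact_mod_cast this
    rw [div_lt_iff₀ hnw] at h3
    have h4 : ((n + w : ℕ) : ℝ) ≤ 2 * n := by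
      have : n + w ≤ 2 * n := by omega
      exact_mod_cast this
    have h5 : Sd (fun i => (x i).1) (n + w) ≤ ε / (16 * (B + 1)) * (2 * n) :=
      h3.le.trans (mul_le_mul_of_nonneg_left h4 (by positivity))
    have h6 : B * Sd (fun i => (x i).1) (n + w) ≤ ε / 8 * n := by
      calc B * Sd (fun i => (x i).1) (n + w) ≤ B * (ε / (16 * (B + 1)) * (2 * n)) :=
            mul_le_mul_of_nonneg_left h5 hB
        _ = (B / (B + 1)) * (ε / 8 * n) := by field_simp; ring
        _ ≤ 1 * (ε / 8 * n) := by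
            apply mul_le_mul_of_nonneg_right _ (by positivity)
            rw [div_le_one (by positivity)]; linarith
        _ = _ := one_mul _
    have h7 : B < ε / 8 * n := by
      have : (N2 : ℝ) ≤ n := by
        have : N2 ≤ n := by omega
        exact_mod_cast this
      rw [div_lt_iff₀ hε] at hN2
      nlinarith
    have h8 : 0 < ε * (n : ℝ) := by positivity
    linarith

/-! ### Failure on `At` -/

lemma const_mem (c : Fin 3) : (fun _ => c : ℕ → Fin 3) ∈ AA := by
  classical
  intro a ha p hv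
  -- a level whose letter is different from `c`
  obtain ⟨j, hj1, hj2, hjc⟩ : ∃ j, a ≤ j + 1 ∧ j + 1 ≤ 2 * a ∧ (if Even j then (0 : Fin 3) else 1) ≠ c := by
    obtain ⟨b, rfl⟩ : ∃ b, a = b + 1 := ⟨a - 1, by omega⟩
    by_cases h : (if Even b then (0 : Fin 3) else 1) = c
    · refine ⟨b + 1, by omega, by omega, ?_⟩
      rw [← h]
      by_cases hb : Even b
      · have : ¬ Even (b + 1) := by rw [Nat.even_add_one]; exact not_not.mpr hb
        rw [if_pos hb, if_neg this]; decide
      · have : Even (b + 1) := by rw [Nat.even_add_one]; exact hb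
        rw [if_neg hb, if_pos this]; decide
    · exact ⟨b, by omega, by omega, h⟩
  have h1 := hv (j + 1) hj1 hj2
  have h2 : 16 ^ (j + 1) - 16 ^ j ≤ mism (fun _ => c) p (16 ^ (j + 1)) := by
    rw [← Nat.card_Ico]
    apply Finset.card_le_card
    intro i hi
    rw [Finset.mem_Ico] at hi
    rw [Finset.mem_filter, Finset.mem_range]
    refine ⟨hi.2, ?_⟩
    rw [xx_eq hi.1 hi.2]
    exact hjc.symm
  have h3 : 16 ^ (j + 1) = 16 * 16 ^ j := by rw [pow_succ]; ring
  have h4 : 1 ≤ 16 ^ j := Nat.one_le_pow _ _ (by norm_num)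
  rw [h3] at h1 h2
  omega

/-- the pseudo-orbit that is not shadowed -/
def px (i : ℕ) : Xt := ⟨fun _ => xx i, AA_subset (const_mem (xx i))⟩

lemma px_mem (i : ℕ) : px i ∈ At := const_mem (xx i)

lemma px_jump (i : ℕ) : dist (ff (px i)) (px (i + 1)) ≤ (Nat.log 16 (i + 1) : ℝ) - Nat.log 16 i := by
  have h0 : Nat.log 16 i ≤ Nat.log 16 (i + 1) := Nat.log_mono_right (by omega)
  by_cases h : Nat.log 16 (i + 1) = Nat.log 16 i
  · have h1 : ff (px i) = px (i + 1) := by
      apply Subtype.ext
      funext n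
      show xx i = xx (i + 1)
      unfold xx
      rw [h]
    rw [h1, h]; simp
  · have h1 : Nat.log 16 i + 1 ≤ Nat.log 16 (i + 1) := by omega
    have h2 : ((Nat.log 16 i : ℝ)) + 1 ≤ Nat.log 16 (i + 1) := by exact_mod_cast h1
    have h3 : dist (ff (px i)) (px (i + 1)) ≤ 1 := by
      rw [Subtype.dist_eq]; exact dist_le_one _ _
    linarith

lemma px_sum (n k : ℕ) : ∑ i ∈ Finset.range n, dist (ff (px (i + k))) (px (i + k + 1)) ≤
    (Nat.log 16 (n + k) : ℝ) - Nat.log 16 k := by
  induction n with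
  | zero => simp
  | succ n ih =>
    rw [Finset.sum_range_succ]
    have h1 := px_jump (n + k)
    have e : n + 1 + k = n + k + 1 := by ring
    rw [e]
    linarith

lemma log_bound (n k : ℕ) : Nat.log 16 (n + k) ≤ Nat.log 16 n + 1 + Nat.log 16 k := by
  rcases le_total n k with h | h
  · rcases Nat.eq_zero_or_pos k with rfl | hk
    · simp
    have h1 : Nat.log 16 (n + k) ≤ Nat.log 16 (k * 16) := Nat.log_mono_right (by omega)
    rw [Nat.log_mul_base (by norm_num) (by omega)] at h1
    omega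
  · rcases Nat.eq_zero_or_pos n with rfl | hn
    · simp
    have h1 : Nat.log 16 (n + k) ≤ Nat.log 16 (n * 16) := Nat.log_mono_right (by omega)
    rw [Nat.log_mul_base (by norm_num) (by omega)] at h1
    omega

lemma log_sq (n : ℕ) (hn : 1 ≤ n) : (Nat.log 16 n + 1) ^ 2 ≤ 4 * n := by
  have h1 : ∀ m : ℕ, (m + 1) ^ 2 ≤ 4 * 16 ^ m := by
    intro m
    induction m with
    | zero => norm_num
    | succ m ih =>
      have h2 : (m + 1 + 1) ^ 2 ≤ (2 * (m + 1)) ^ 2 := Nat.pow_le_pow_left (by omega) 2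
      have h3 : (2 * (m + 1)) ^ 2 = 4 * (m + 1) ^ 2 := by ring
      rw [pow_succ 16 m]
      omega
  exact (h1 _).trans (Nat.mul_le_mul_left _ (Nat.pow_log_le_self 16 (by omega)))

lemma px_avg (n k : ℕ) (hn : 1 ≤ n) :
    (∑ i ∈ Finset.range n, dist (ff (px (i + k))) (px (i + k + 1))) / (n : ℝ) ≤ 2 / Real.sqrt n := by
  have hn0 : (0 : ℝ) < n := by exact_mod_cast hn
  have h1 := px_sum n k
  have h2 : (Nat.log 16 (n + k) : ℝ) ≤ Nat.log 16 n + 1 + Nat.log 16 k := by
    exact_mod_cast log_bound n k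
  have h3 : ((Nat.log 16 n : ℝ) + 1) ^ 2 ≤ 4 * n := by exact_mod_cast log_sq n hn
  have h4 : (Nat.log 16 n : ℝ) + 1 ≤ 2 * Real.sqrt n := by
    have h5 := Real.sqrt_le_sqrt h3
    rw [Real.sqrt_sq (by positivity), Real.sqrt_mul (by norm_num)] at h5
    have h6 : Real.sqrt 4 = 2 := by
      rw [show (4 : ℝ) = 2 ^ 2 by norm_num]; exact Real.sqrt_sq (by norm_num)
    rwa [h6] at h5
  have hs : 0 < Real.sqrt n := Real.sqrt_pos.mpr hn0
  rw [div_le_div_iff₀ hn0 hs]
  have h7 : Real.sqrt n * Real.sqrt n = n := Real.mul_self_sqrt hn0.le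
  have h8 : (∑ i ∈ Finset.range n, dist (ff (px (i + k))) (px (i + k + 1))) ≤ 2 * Real.sqrt n := by
    linarith
  calc _ ≤ 2 * Real.sqrt n * Real.sqrt n := mul_le_mul_of_nonneg_right h8 hs.le
    _ = 2 * n := by rw [mul_assoc, h7]

lemma tendsto_two_div_sqrt : Tendsto (fun n : ℕ => 2 / Real.sqrt n) atTop (𝓝 0) := by
  apply Filter.Tendsto.div_atTop tendsto_const_nhds
  exact Real.tendsto_sqrt_atTop.comp tendsto_natCast_atTop_atTop

/-- no point of `At` follows the pseudo-orbit in average -/
lemma px_far {y : Xt} (hy : y ∈ At) (N : ℕ) : ∃ n ≥ N,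
    1 / 16 < (∑ i ∈ Finset.range n, dist (ff^[i] y) (px i)) / (n : ℝ) := by
  classical
  have h1 := hy (N + 1) (by omega) 0
  unfold Viol at h1
  push Not at h1
  obtain ⟨j, hj1, -, hj⟩ := h1
  refine ⟨16 ^ j, ?_, ?_⟩
  · have h2 : j < 16 ^ j := Nat.lt_pow_self (by norm_num)
    show N ≤ 16 ^ j
    omega
  · rw [lt_div_iff₀ (by positivity)]
    have h2 : (mism y.1 0 (16 ^ j) : ℝ) ≤ ∑ i ∈ Finset.range (16 ^ j), dist (ff^[i] y) (px i) := by
      unfold mism
      rw [Finset.card_filter]
      push_cast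
      apply Finset.sum_le_sum
      intro i _
      split_ifs with h
      · rw [Subtype.dist_eq, ff_iter]
        rw [dist_eq_one]
        rw [shift_iter]
        rw [zero_add] at h
        rw [add_zero]
        exact h
      · exact dist_nonneg
    have h3 : (16 : ℝ) ^ j < 16 * mism y.1 0 (16 ^ j) := by exact_mod_cast hj
    push_cast
    linarith

lemma not_AASP : ¬ AASP ff At := by
  intro h
  have hx : Tendsto (fun n : ℕ => (∑ i ∈ Finset.range n, dist (ff (px i)) (px (i + 1))) / (n : ℝ))
      atTop (𝓝 0) := by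
    apply squeeze_zero' _ _ tendsto_two_div_sqrt
    · exact Filter.Eventually.of_forall fun n =>
        div_nonneg (Finset.sum_nonneg fun _ _ => dist_nonneg) (Nat.cast_nonneg _)
    · refine Filter.eventually_atTop.mpr ⟨1, fun n hn => ?_⟩
      exact px_avg n 0 hn
  obtain ⟨y, hy, hlim⟩ := h px px_mem hx
  rw [Metric.tendsto_atTop] at hlim
  obtain ⟨N, hN⟩ := hlim (1 / 16) (by norm_num)
  obtain ⟨n, hn, hn2⟩ := px_far hy N
  have := hN n hn
  rw [Real.dist_eq, sub_zero] at this
  exact absurd (lt_of_le_of_lt (le_abs_self _) this) (not_lt.mpr hn2.le)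

lemma not_ASP : ¬ ASP ff At := by
  intro h
  obtain ⟨δ, hδ, h⟩ := h (1 / 16) (by norm_num)
  have hpo : AvgPseudoOrbit ff δ px := by
    have h1 := (tendsto_order.mp tendsto_two_div_sqrt).2 δ hδ
    obtain ⟨N, hN⟩ := Filter.eventually_atTop.mp h1
    exact ⟨N + 1, fun n hn k => lt_of_le_of_lt (px_avg n k (by omega)) (hN n (by omega))⟩
  obtain ⟨y, hy, hlim⟩ := h px px_mem hpo
  have hbdd : Filter.IsBoundedUnder (· ≤ ·) atTop
      (fun n : ℕ => (∑ i ∈ Finset.range n, dist (ff^[i] y) (px i)) / (n : ℝ)) := by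
    refine ⟨1, Filter.eventually_map.mpr (Filter.Eventually.of_forall fun n => ?_)⟩
    apply div_le_one_of_le₀ _ (Nat.cast_nonneg _)
    calc ∑ i ∈ Finset.range n, dist (ff^[i] y) (px i) ≤ ∑ i ∈ Finset.range n, (1 : ℝ) := by
          apply Finset.sum_le_sum
          intro i _
          rw [Subtype.dist_eq]; exact dist_le_one _ _
      _ = n := by simp
  have h2 := Filter.eventually_lt_of_limsup_lt hlim hbdd
  obtain ⟨N, hN⟩ := Filter.eventually_atTop.mp h2
  obtain ⟨n, hn, hn2⟩ := px_far hy N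
  exact absurd (hN n hn) (not_lt.mpr hn2.le)

end Example


/-! ### Almost specification restricts to every invariant compact set containing the center -/

section KB

/-- Krylov-Bogoliubov -/
theorem krylov {X : Type*} [MetricSpace X] [CompactSpace X] [Nonempty X] [MeasurableSpace X]
    [BorelSpace X] (f : X → X) (hf : Continuous f) :
    ∃ μ : Measure X, IsProbabilityMeasure μ ∧ μ.map f = μ := by
  classical
  obtain ⟨x0⟩ := ‹Nonempty X›
  let mm : ℕ → Measure X := fun n => ((n + 1 : ℕ) : ENNReal)⁻¹ • ∑ k ∈ Finset.range (n + 1), Measure.dirac (f^[k] x0)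
  have hmm : ∀ n, IsProbabilityMeasure (mm n) := by
    intro n
    constructor
    simp only [mm, Measure.smul_apply, Measure.finsetSum_apply, Measure.dirac_apply_of_mem (Set.mem_univ _),
      Finset.sum_const, Finset.card_range, nsmul_eq_mul, mul_one, smul_eq_mul]
    exact ENNReal.inv_mul_cancel (by simp) (by simp)
  let m : ℕ → ProbabilityMeasure X := fun n => ⟨mm n, hmm n⟩
  have hint : ∀ (n : ℕ) (φ : BoundedContinuousFunction X ℝ), ∫ x, φ x ∂(m n : Measure X)
      = ((n : ℝ) + 1)⁻¹ * ∑ k ∈ Finset.range (n + 1), φ (f^[k] x0) := by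
    intro n φ
    show ∫ x, φ x ∂(mm n) = _
    simp only [mm]
    rw [integral_smul_measure, integral_finsetSum_measure]
    · simp only [integral_dirac, smul_eq_mul]
      congr 1
      rw [ENNReal.toReal_inv, ENNReal.toReal_natCast]
      push_cast; rfl
    · intro k _
      exact integrable_dirac (by finiteness)
  let U : Ultrafilter ℕ := Ultrafilter.of atTop
  have hU : (U : Filter ℕ) ≤ atTop := Ultrafilter.of_le atTop
  let μ : ProbabilityMeasure X := (U.map m).lim
  have hμ : Tendsto m U (𝓝 μ) := (U.map m).le_nhds_lim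
  have hμf := ProbabilityMeasure.tendsto_iff_forall_integral_tendsto.1 hμ
  have hinv : ∀ (φ : BoundedContinuousFunction X ℝ),
      ∫ x, φ (f x) ∂(μ : Measure X) = ∫ x, φ x ∂(μ : Measure X) := by
    intro φ
    have h1 := hμf φ
    have h2 := hμf (φ.compContinuous ⟨f, hf⟩)
    have h3 : Tendsto (fun n : ℕ => (∫ x, (φ.compContinuous ⟨f, hf⟩) x ∂(m n : Measure X))
        - ∫ x, φ x ∂(m n : Measure X)) U (𝓝 0) := by
      have h4 : Tendsto (fun n : ℕ => (2 * ‖φ‖) * (1 / ((n : ℝ) + 1))) U (𝓝 ((2 * ‖φ‖) * 0)) :=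
        (tendsto_one_div_add_atTop_nhds_zero_nat.mono_left hU).const_mul _
      rw [mul_zero] at h4
      refine squeeze_zero_norm (fun n => ?_) h4
      rw [hint, hint, ← mul_sub, norm_mul, norm_inv, Real.norm_of_nonneg (by positivity : (0 : ℝ) ≤ n + 1),
        one_div, mul_comm]
      apply mul_le_mul_of_nonneg_right _ (by positivity)
      have h5 : ∑ k ∈ Finset.range (n + 1), (φ.compContinuous ⟨f, hf⟩) (f^[k] x0) -
          ∑ k ∈ Finset.range (n + 1), φ (f^[k] x0) = φ (f^[n + 1] x0) - φ x0 := by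
        have h6 : ∀ k, (φ.compContinuous ⟨f, hf⟩) (f^[k] x0) = φ (f^[k + 1] x0) := by
          intro k
          rw [Function.iterate_succ_apply']
          rfl
        simp_rw [h6]
        rw [← Finset.sum_sub_distrib, Finset.sum_range_sub (fun k => φ (f^[k] x0))]
        rfl
      rw [h5]
      refine (norm_sub_le _ _).trans ?_
      have h7 := φ.norm_coe_le_norm (f^[n + 1] x0)
      have h8 := φ.norm_coe_le_norm x0
      linarith
    have h5 := tendsto_nhds_unique h3 (h2.sub h1)
    have h6 : (∫ x, (φ.compContinuous ⟨f, hf⟩) x ∂(μ : Measure X)) = ∫ x, φ x ∂(μ : Measure X) := by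
      linarith
    exact h6
  refine ⟨μ, inferInstance, ?_⟩
  have : IsProbabilityMeasure ((μ : Measure X).map f) :=
    Measure.isProbabilityMeasure_map hf.measurable.aemeasurable
  refine ext_of_forall_integral_eq_of_IsFiniteMeasure fun φ => ?_
  rw [integral_map hf.measurable.aemeasurable φ.continuous.aestronglyMeasurable]
  exact hinv φ

variable {X : Type*} [MetricSpace X] [CompactSpace X]

/-- a nonempty compact forward invariant set meets the measure center -/
lemma meets_center (f : X → X) (hf : Continuous f) (D : Set X) (hD : IsClosed D) (hne : D.Nonempty)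
    (hfD : ∀ x ∈ D, f x ∈ D) : (D ∩ measureCenter f).Nonempty := by
  by_contra hcon
  rw [Set.not_nonempty_iff_eq_empty] at hcon
  have hsub : D ⊆ ⋃₀ {U : Set X | IsOpen U ∧ UniversallyNull f U} := by
    intro x hx
    by_contra h
    have : x ∈ D ∩ measureCenter f := ⟨hx, h⟩
    rw [hcon] at this
    exact this
  let _ : MeasurableSpace X := borel X
  have : BorelSpace X := ⟨rfl⟩
  have : CompactSpace D := isCompact_iff_compactSpace.mp hD.isCompact
  have : Nonempty D := hne.to_subtype
  let F : D → D := fun x => ⟨f x.1, hfD x.1 x.2⟩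
  have hF : Continuous F := Continuous.subtype_mk (hf.comp continuous_subtype_val) _
  obtain ⟨ν, hν, hνF⟩ := krylov F hF
  have hval : Measurable (Subtype.val : D → X) := measurable_subtype_coe
  set μ : Measure X := ν.map Subtype.val with hμ
  have hμp : IsProbabilityMeasure μ := Measure.isProbabilityMeasure_map hval.aemeasurable
  have hμf : μ.map f = μ := by
    rw [hμ, Measure.map_map hf.measurable hval]
    have : (f ∘ Subtype.val : D → X) = Subtype.val ∘ F := rfl
    rw [this, ← Measure.map_map hval hF.measurable, hνF]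
  have hμD : μ D = 1 := by
    rw [hμ, Measure.map_apply hval hD.measurableSet]
    have : (Subtype.val ⁻¹' D : Set D) = Set.univ := by ext x; simp
    rw [this, measure_univ]
  obtain ⟨T, hDT⟩ := hD.isCompact.elim_finite_subcover
    (fun U : {U : Set X // IsOpen U ∧ UniversallyNull f U} => U.1) (fun U => U.2.1)
    (fun x hx => by
      obtain ⟨U, hU, hxU⟩ := hsub hx
      exact Set.mem_iUnion.mpr ⟨⟨U, hU⟩, hxU⟩)
  have h0 : μ (⋃ U ∈ T, (U : {U : Set X // IsOpen U ∧ UniversallyNull f U}).1) = 0 := by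
    refine (measure_biUnion_null_iff (s := fun U : {U : Set X // IsOpen U ∧ UniversallyNull f U} => U.1)
      T.countable_toSet).mpr ?_
    intro U _
    exact U.2.2 μ hμp hμf
  have h1 := measure_mono_null hDT h0
  rw [hμD] at h1
  exact one_ne_zero h1

omit [CompactSpace X] in
lemma center_invariant (f : X → X) (hf : Continuous f) {x : X} (hx : x ∈ measureCenter f) :
    f x ∈ measureCenter f := by
  rintro ⟨U, ⟨hU, hnull⟩, hxU⟩
  apply hx
  refine ⟨f ⁻¹' U, ⟨hU.preimage hf, ?_⟩, hxU⟩
  let _ : MeasurableSpace X := borel X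
  have : BorelSpace X := ⟨rfl⟩
  intro μ hμ hinv
  rw [← Measure.map_apply hf.measurable hU.measurableSet, hinv]
  exact hnull μ hμ hinv

omit [CompactSpace X] in
lemma center_iter (f : X → X) (hf : Continuous f) {x : X} (hx : x ∈ measureCenter f) (n : ℕ) :
    f^[n] x ∈ measureCenter f := by
  induction n with
  | zero => exact hx
  | succ n ih => rw [Function.iterate_succ_apply']; exact center_invariant f hf ih

/-- the closed version of the ball `B_n(g; x, ε)` -/
def cball (f : X → X) (g : ℕ → ℝ → ℕ) (n : ℕ) (x : X) (ε : ℝ) : Set X :=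
  {y | ∃ Λ ⊆ Finset.range n, n - g n ε ≤ Λ.card ∧ ∀ j ∈ Λ, dist (f^[j] x) (f^[j] y) ≤ ε}

omit [CompactSpace X] in
lemma cball_closed (f : X → X) (hf : Continuous f) (g : ℕ → ℝ → ℕ) (n : ℕ) (x : X) (ε : ℝ) :
    IsClosed (cball f g n x ε) := by
  classical
  have : cball f g n x ε = ⋃ Λ ∈ (Finset.range n).powerset.filter (fun Λ => n - g n ε ≤ Λ.card),
      ⋂ j ∈ Λ, {y | dist (f^[j] x) (f^[j] y) ≤ ε} := by
    ext y
    simp only [cball, Set.mem_ofPred_eq, Set.mem_iUnion, Finset.mem_filter, Finset.mem_powerset,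
      Set.mem_iInter, exists_prop]
    constructor
    · rintro ⟨Λ, h1, h2, h3⟩; exact ⟨Λ, ⟨h1, h2⟩, h3⟩
    · rintro ⟨Λ, ⟨h1, h2⟩, h3⟩; exact ⟨Λ, h1, h2, h3⟩
  rw [this]
  apply isClosed_biUnion_finset
  intro Λ _
  refine isClosed_iInter fun j => isClosed_iInter fun _ => ?_
  exact isClosed_le (continuous_const.dist (hf.iterate j)) continuous_const

lemma AlmostSpec.restrict {f : X → X} (hf : Continuous f) {A : Set X}
    (hM : measureCenter f ⊆ A) (h : AlmostSpec f Set.univ) : AlmostSpec f A := by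
  obtain ⟨g, ε₀, k, hg, hk, hspec⟩ := h
  refine ⟨fun n ε => g n (ε / 2), 2 * ε₀, fun ε => k (ε / 2), ?_, ?_, ?_⟩
  · refine ⟨by linarith [hg.pos], fun ε hε => hg.mono (ε / 2) (by positivity),
      fun ε hε => hg.lim (ε / 2) (by positivity), fun n ε hε => ?_⟩
    rw [hg.const n (ε / 2) (by linarith)]
    congr 1; ring
  · intro ε hε n hn
    exact hk (ε / 2) (by positivity) n hn
  · intro m hm ε x n hyp
    -- periodic extension
    set n' : ℕ → ℕ := fun j => n (j % m) with hn'
    set l : ℕ → ℕ := fun j => ∑ i ∈ Finset.range j, n' i with hl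
    set C : ℕ → Set X := fun j => f^[l j] ⁻¹' (cball f g (n' j) (x (j % m)) (ε (j % m) / 2)) with hC
    have hmod : ∀ j, j % m < m := fun j => Nat.mod_lt _ hm
    have hl_per : ∀ j, l (j + m) = l j + l m := by
      intro j
      induction j with
      | zero => simp [hl]
      | succ j ih =>
        have e : j + 1 + m = j + m + 1 := by ring
        rw [e]
        simp only [hl] at ih ⊢
        rw [Finset.sum_range_succ, ih, Finset.sum_range_succ]
        have : n' (j + m) = n' j := by simp only [hn', Nat.add_mod_right]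
        rw [this]; ring
    have hCc : ∀ j, IsClosed (C j) := fun j => (cball_closed f hf g _ _ _).preimage (hf.iterate _)
    -- the points following the first `N` pieces
    have hne : ∀ N : ℕ, (⋂ j ∈ Finset.range N, C j).Nonempty := by
      intro N
      rcases Nat.eq_zero_or_pos N with rfl | hN
      · simp only [Finset.range_zero, Finset.notMem_empty, Set.iInter_of_empty, Set.iInter_univ]
        exact ⟨x 0, trivial⟩
      obtain ⟨z, -, hz⟩ := hspec N hN (fun j => ε (j % m) / 2) (fun j => x (j % m)) n'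
        (fun j _ => ⟨by have := (hyp _ (hmod j)).1; positivity, trivial, (hyp _ (hmod j)).2.2⟩)
      refine ⟨z, ?_⟩
      simp only [Set.mem_iInter, Finset.mem_range]
      intro j hj
      obtain ⟨Λ, h1, h2, h3⟩ := hz j hj
      exact ⟨Λ, h1, h2, fun i hi => (h3 i hi).le⟩
    obtain ⟨z0, hz0⟩ := IsCompact.nonempty_iInter_of_sequence_nonempty_isCompact_isClosed
      (fun N : ℕ => ⋂ j ∈ Finset.range N, C j)
      (fun N => by
        intro z hz
        simp only [Set.mem_iInter, Finset.mem_range] at hz ⊢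
        exact fun j hj => hz j (by omega))
      hne (isClosed_biInter fun j _ => hCc j).isCompact
      (fun N => isClosed_biInter fun j _ => hCc j)
    set D : Set X := ⋂ j, C j with hD
    have hz0D : z0 ∈ D := by
      simp only [Set.mem_iInter, Finset.mem_range] at hz0
      rw [hD, Set.mem_iInter]
      exact fun j => hz0 (j + 1) j (by omega)
    have hDc : IsClosed D := isClosed_iInter hCc
    set L := l m with hL
    have hDL : ∀ z ∈ D, f^[L] z ∈ D := by
      intro z hz
      rw [hD, Set.mem_iInter] at hz ⊢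
      intro j
      have h1 := hz (j + m)
      simp only [hC, Set.mem_preimage] at h1 ⊢
      rw [hl_per, Function.iterate_add_apply] at h1
      have : n' (j + m) = n' j := by simp only [hn', Nat.add_mod_right]
      rw [this, Nat.add_mod_right] at h1
      exact h1
    have hLpos : 0 < L := by
      have h1 : n' 0 ≤ L := by
        rw [hL]
        exact Finset.single_le_sum (f := n') (fun i _ => Nat.zero_le _) (Finset.mem_range.mpr hm)
      have h2 := hyp 0 hm
      have h3 : g (n 0) (ε 0 / 2) < n 0 := hk (ε 0 / 2) (by have := h2.1; positivity) (n 0) h2.2.2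
      have h4 : n' 0 = n 0 := by simp only [hn', Nat.zero_mod]
      omega
    -- the forward invariant set
    set D' : Set X := ⋃ i ∈ Finset.range L, f^[i] '' D with hD'
    have hD'c : IsClosed D' := by
      apply isClosed_biUnion_finset
      intro i _
      exact (hDc.isCompact.image (hf.iterate i)).isClosed
    have hD'f : ∀ z ∈ D', f z ∈ D' := by
      intro z hz
      simp only [hD', Set.mem_iUnion, Finset.mem_range, exists_prop] at hz ⊢
      obtain ⟨i, hi, w, hw, rfl⟩ := hz
      by_cases h : i + 1 < L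
      · exact ⟨i + 1, h, w, hw, Function.iterate_succ_apply' f i w⟩
      · have e : i + 1 = L := by omega
        refine ⟨0, hLpos, f^[L] w, hDL w hw, ?_⟩
        rw [← e, Function.iterate_succ_apply']; rfl
    have hD'ne : D'.Nonempty := by
      refine ⟨z0, ?_⟩
      simp only [hD', Set.mem_iUnion, Finset.mem_range, exists_prop]
      exact ⟨0, hLpos, z0, hz0D, rfl⟩
    obtain ⟨w, hw1, hw2⟩ := meets_center f hf D' hD'c hD'ne hD'f
    simp only [hD', Set.mem_iUnion, Finset.mem_range, exists_prop] at hw1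
    obtain ⟨i, hi, d, hd, rfl⟩ := hw1
    have hz : f^[L] d ∈ measureCenter f := by
      have h1 := center_iter f hf hw2 (L - i)
      rw [← Function.iterate_add_apply] at h1
      have e : L - i + i = L := by omega
      rwa [e] at h1
    refine ⟨f^[L] d, hM hz, fun j hj => ?_⟩
    have h1 := hDL d hd
    rw [hD, Set.mem_iInter] at h1
    have h2 := h1 j
    simp only [hC, Set.mem_preimage] at h2
    have hjm : j % m = j := Nat.mod_eq_of_lt hj
    have hlj : l j = ∑ i ∈ Finset.range j, n i := by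
      rw [hl]
      refine Finset.sum_congr rfl fun i hi => ?_
      rw [Finset.mem_range] at hi
      simp only [hn', Nat.mod_eq_of_lt (hi.trans hj)]
    have hnj : n' j = n j := by simp only [hn', hjm]
    rw [hlj, hnj, hjm] at h2
    obtain ⟨Λ, h3, h4, h5⟩ := h2
    refine ⟨Λ, h3, h4, fun i hi => lt_of_le_of_lt (h5 i hi) ?_⟩
    have := (hyp j hj).1
    linarith

end KB

universe u

/-- **Shadowing and specification on sets containing the measure center.**  Almost specification
passes from a compact system to every compact forward invariant set containing the measure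
center.  The average shadowing property and the asymptotic average shadowing property do not:
one compact system with both properties has a compact forward invariant set containing the
measure center on which both fail. -/
theorem result :
    (∀ (X : Type u) (_ : MetricSpace X) (_ : CompactSpace X) (f : X → X) (A : Set X), Continuous f →
      IsCompact A → Set.MapsTo f A A → measureCenter f ⊆ A →
      AlmostSpec f Set.univ → AlmostSpec f A) ∧
    (∃ (X : Type) (_ : MetricSpace X) (_ : CompactSpace X) (f : X → X) (A : Set X), Continuous f ∧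
      IsCompact A ∧ Set.MapsTo f A A ∧ measureCenter f ⊆ A ∧
      ASP f Set.univ ∧ AASP f Set.univ ∧ ¬ ASP f A ∧ ¬ AASP f A) := by
  refine ⟨fun X _ _ f A hf _ _ hM h => AlmostSpec.restrict hf hM h, ?_⟩
  let _ := (PiNat.metricSpace : MetricSpace (ℕ → Fin 3))
  exact ⟨Xt, inferInstance, inferInstance, ff, At, continuous_ff, At_closed.isCompact,
    fun y hy => shift_AA hy, center_subset, ff_ASP, ff_AASP, not_ASP, not_AASP⟩

end Pool.Agent.Results.MP_7fd9c6_an.MeasureCenter
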